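import Pool.Agent.CycPl.Targets

/-!
# CH: a bound for binomial coefficients
-/

set_option autoImplicit false

namespace Pool.Agent.CycPl

open Finset

theorem p_CH : T_CH := by
  intro N M a h
  rcases lt_or_ge N M with hlt | hge
  · rw [Nat.choose_eq_zero_of_lt hlt]
    exact Nat.zero_le _
  have h2 : (0 : ℝ) < 2 ^ a := by positivity
  have hx : (0 : ℝ) < 1 / 2 ^ a := by positivity
  have hN : (N : ℝ) * (1 / 2 ^ a) ≤ M := by
    rw [mul_one_div, div_le_iff₀ h2]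
    have : (N : ℝ) ≤ 2 ^ a * M := by exact_mod_cast h
    linarith
  have h1 : (1 / 2 ^ a : ℝ) ^ M * (N.choose M : ℝ) ≤ (1 / 2 ^ a + 1) ^ N := by
    rw [add_pow]
    have hs := Finset.single_le_sum (s := range (N + 1))
      (f := fun m => (1 / 2 ^ a : ℝ) ^ m * 1 ^ (N - m) * (N.choose m : ℝ))
      (fun i _ => by positivity) (Finset.mem_range.mpr (Nat.lt_succ_of_le hge))
    simpa using hs
  have h3 : (1 / 2 ^ a + 1 : ℝ) ^ N ≤ 4 ^ M := by
    calc (1 / 2 ^ a + 1 : ℝ) ^ N ≤ (Real.exp (1 / 2 ^ a)) ^ N :=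
          pow_le_pow_left₀ (by positivity) (Real.add_one_le_exp _) N
      _ = Real.exp (N * (1 / 2 ^ a)) := by rw [← Real.exp_nat_mul]
      _ ≤ Real.exp M := Real.exp_le_exp.mpr hN
      _ = Real.exp 1 ^ M := by rw [← Real.exp_nat_mul, mul_one]
      _ ≤ 4 ^ M := pow_le_pow_left₀ (Real.exp_pos _).le
          (by linarith [Real.exp_one_lt_d9]) M
  have h4 : (N.choose M : ℝ) ≤ 2 ^ ((a + 2) * M) := by
    have h5 : (1 / 2 ^ a : ℝ) ^ M * (N.choose M : ℝ) ≤ 4 ^ M := h1.trans h3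
    have h6 : (0 : ℝ) < (2 ^ a) ^ M := by positivity
    have h7 : (1 / 2 ^ a : ℝ) ^ M = 1 / (2 ^ a) ^ M := by rw [one_div_pow]
    rw [h7, one_div_mul_eq_div, div_le_iff₀ h6] at h5
    calc (N.choose M : ℝ) ≤ 4 ^ M * (2 ^ a) ^ M := h5
      _ = 2 ^ ((a + 2) * M) := by
          rw [show (4 : ℝ) = 2 ^ 2 by norm_num, ← mul_pow, ← pow_add, ← pow_mul, add_comm 2 a]
  exact_mod_cast h4

end Pool.Agent.CycPl
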