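import Pool.Agent.CycPl.Targets
import Pool.Agent.CycSp.COUNT

/-!
# Counting sets of natural numbers which contain a large difference structure, sharper form
-/

set_option autoImplicit false

namespace Pool.Agent.CycPl

open Finset
open Pool.Agent.CycSp (greedy count_above)

/-- COUNT2. -/
theorem p_COUNT2 : T_COUNT2 := by
  classical
  intro n s z0 hs1
  by_cases h0 : s * z0 = 0
  · have h1 : {A : Set ℕ | (∀ l ∈ A, l ≤ n) ∧ ∃ Z D : Finset ℤ, D.card = s ∧
        s ^ 2 * z0 ≤ Z.card ∧ ∀ z ∈ Z, ∀ d ∈ D, ∃ N ∈ A, (N : ℤ) = z - d} ⊆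
        {A : Set ℕ | ((∅ : Finset ℕ) : Set ℕ) ⊆ A ∧ (∀ l ∈ A, l ≤ n) ∧
          (∅ : Finset ℕ).card = 0} := by
      rintro A ⟨h, _⟩
      exact ⟨by simp, h, by simp⟩
    have hfin : {A : Set ℕ | ((∅ : Finset ℕ) : Set ℕ) ⊆ A ∧ (∀ l ∈ A, l ≤ n) ∧
          (∅ : Finset ℕ).card = 0}.Finite := by
      refine (Set.Finite.powerset (Set.finite_Iic n)).subset ?_
      rintro A ⟨_, h, _⟩ l hl
      exact h l hl
    refine le_trans (Set.ncard_le_ncard h1 hfin) (le_trans (count_above n 0 ∅) ?_)
    rw [h0]
    have hz0 : z0 = 0 := by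
      rcases Nat.mul_eq_zero.1 h0 with h | h
      · omega
      · exact h
    rw [hz0, Nat.choose_zero_right]
    exact Nat.le_mul_of_pos_left _ (by positivity)
  · have hs : 0 < s := Nat.pos_of_ne_zero (by rintro rfl; simp at h0)
    have hz : 0 < z0 := Nat.pos_of_ne_zero (by rintro rfl; simp at h0)
    let I : Finset (Finset ℕ × Finset ℕ) :=
      powersetCard z0 (range (n + 1)) ×ˢ powersetCard s (range (n + 1))
    let E : Finset ℕ × Finset ℕ → Finset ℕ := fun p => (p.1 ×ˢ p.2).image fun q => q.1 - q.2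
    let T : Finset ℕ × Finset ℕ → Set (Set ℕ) := fun p =>
      {A : Set ℕ | ((E p : Finset ℕ) : Set ℕ) ⊆ A ∧ (∀ l ∈ A, l ≤ n) ∧ (E p).card = s * z0}
    have hTfin : ∀ p, (T p).Finite := by
      intro p
      refine (Set.Finite.powerset (Set.finite_Iic n)).subset ?_
      rintro A ⟨_, h, _⟩ l hl
      exact h l hl
    have hsub : {A : Set ℕ | (∀ l ∈ A, l ≤ n) ∧ ∃ Z D : Finset ℤ, D.card = s ∧
        s ^ 2 * z0 ≤ Z.card ∧ ∀ z ∈ Z, ∀ d ∈ D, ∃ N ∈ A, (N : ℤ) = z - d} ⊆
        ⋃ p ∈ I, T p := by
      rintro A ⟨hA, Z, D, hDc, hZc, hZD⟩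
      have hDne : D.Nonempty := Finset.card_pos.1 (by omega)
      have hZne : Z.Nonempty := Finset.card_pos.1 (lt_of_lt_of_le (by positivity) hZc)
      obtain ⟨W, hWZ, hWc, hWd⟩ := greedy D z0 Z (by rw [hDc]; exact hZc) hDne
      let μ := D.min' hDne
      have hμ : μ ∈ D := D.min'_mem hDne
      have hμle : ∀ d ∈ D, μ ≤ d := fun d hd => D.min'_le d hd
      have hZr : ∀ z ∈ Z, 0 ≤ z - μ ∧ z - μ ≤ n := by
        intro z hz
        obtain ⟨N, hN, hN'⟩ := hZD z hz μ hμ
        have := hA N hN
        constructor <;> omega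
      have hDr : ∀ d ∈ D, 0 ≤ d - μ ∧ d - μ ≤ n := by
        intro d hd
        obtain ⟨z, hz⟩ := hZne
        obtain ⟨N, hN, hN'⟩ := hZD z hz d hd
        have h1 := hZr z hz
        have h2 := hμle d hd
        constructor <;> omega
      let W' : Finset ℕ := W.image fun w => (w - μ).toNat
      let D' : Finset ℕ := D.image fun d => (d - μ).toNat
      have hW'c : W'.card = z0 := by
        rw [← hWc]
        apply Finset.card_image_of_injOn
        intro a ha b hb hab
        have h1 := hZr a (hWZ ha)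
        have h2 := hZr b (hWZ hb)
        simp only at hab
        omega
      have hD'c : D'.card = s := by
        rw [← hDc]
        apply Finset.card_image_of_injOn
        intro a ha b hb hab
        have h1 := hDr a ha
        have h2 := hDr b hb
        simp only at hab
        omega
      have hval : ∀ w ∈ W, ∀ d ∈ D, ((((w - μ).toNat - (d - μ).toNat : ℕ)) : ℤ) = w - d := by
        intro w hw d hd
        have h1 := hZr w (hWZ hw)
        have h2 := hDr d hd
        obtain ⟨N, hN, hN'⟩ := hZD w (hWZ hw) d hd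
        omega
      have hEc : (E (W', D')).card = s * z0 := by
        have h1 : (E (W', D')).card = (W ×ˢ D).card := by
          have h2 : E (W', D') = (W ×ˢ D).image
              fun q => (q.1 - μ).toNat - (q.2 - μ).toNat := by
            ext x
            simp only [E, W', D', Finset.mem_image, Finset.mem_product, Prod.exists]
            constructor
            · rintro ⟨a, b, ⟨⟨w, hw, rfl⟩, ⟨d, hd, rfl⟩⟩, rfl⟩
              exact ⟨w, d, ⟨hw, hd⟩, rfl⟩
            · rintro ⟨w, d, ⟨hw, hd⟩, rfl⟩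
              exact ⟨_, _, ⟨⟨w, hw, rfl⟩, ⟨d, hd, rfl⟩⟩, rfl⟩
          rw [h2]
          apply Finset.card_image_of_injOn
          rintro ⟨w, d⟩ hq ⟨w', d'⟩ hq' he
          have hq1 := Finset.mem_product.1 hq
          have hq2 := Finset.mem_product.1 hq'
          simp only at he hq1 hq2
          have h3 := hval w hq1.1 d hq1.2
          have h4 := hval w' hq2.1 d' hq2.2
          have h5 : w - d = w' - d' := by rw [← h3, ← h4, he]
          have h6 := hWd w hq1.1 w' hq2.1 d hq1.2 d' hq2.2 h5
          ext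
          · exact h6
          · simp only; omega
        rw [h1, Finset.card_product, hWc, hDc, mul_comm]
      rw [Set.mem_iUnion₂]
      refine ⟨(W', D'), ?_, ?_, hA, hEc⟩
      · simp only [I, Finset.mem_product, Finset.mem_powersetCard]
        refine ⟨⟨?_, hW'c⟩, ⟨?_, hD'c⟩⟩
        · intro x hx
          obtain ⟨w, hw, rfl⟩ := Finset.mem_image.1 hx
          have h1 := hZr w (hWZ hw)
          simp
          omega
        · intro x hx
          obtain ⟨d, hd, rfl⟩ := Finset.mem_image.1 hx
          have h1 := hDr d hd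
          simp
          omega
      · intro x hx
        simp only [E, W', D', Finset.coe_image, Finset.coe_product] at hx
        obtain ⟨⟨a, b⟩, ⟨⟨w, hw, rfl⟩, ⟨d, hd, rfl⟩⟩, rfl⟩ := hx
        obtain ⟨N, hN, hN'⟩ := hZD w (hWZ hw) d hd
        have h1 := hval w hw d hd
        have h2 : (w - μ).toNat - (d - μ).toNat = N := by
          have : (((w - μ).toNat - (d - μ).toNat : ℕ) : ℤ) = N := by rw [h1, hN']
          exact_mod_cast this
        show (w - μ).toNat - (d - μ).toNat ∈ A
        rw [h2]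
        exact hN
    have hfin : (⋃ p ∈ I, T p).Finite := Set.Finite.biUnion (Finset.finite_toSet I) fun p _ => hTfin p
    refine le_trans (Set.ncard_le_ncard hsub hfin) ?_
    have h1 : (⋃ p ∈ I, T p).ncard ≤ ∑ p ∈ I, (T p).ncard := Finset.set_ncard_biUnion_le I T
    refine le_trans h1 ?_
    refine le_trans (Finset.sum_le_card_nsmul I _ (2 ^ (n + 1 - s * z0))
      (fun p _ => count_above n (s * z0) (E p))) ?_
    rw [smul_eq_mul]
    apply Nat.mul_le_mul_right
    simp only [I, Finset.card_product, Finset.card_powersetCard, Finset.card_range]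
    rw [mul_comm]
    exact Nat.mul_le_mul (Nat.choose_le_pow _ _) le_rfl

end Pool.Agent.CycPl
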