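import Pool.Agent.CycSp.Targets
import Pool.Agent.Pend.Targets2

/-!
# Cycle sets of graphs without a Möbius ladder minor: definitions

See `Blueprint.lean.txt`.
-/

set_option autoImplicit false

namespace Pool.Agent.CycPl

open Finset
open Pool.Agent.HubG (cycleSet CycSeq)
open Pool.Agent.CycSp (Pt Cyc offE ZD SparseP)
open Pool.Agent.Pend (Minor)

/-- The Möbius ladder with `r` rungs: the cycle `0, 1, …, 2r - 1` and the chords `i, i + r`. -/
def Mob (r : ℕ) : SimpleGraph (Fin (2 * r)) :=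
  SimpleGraph.fromRel (fun i j => (i : ℕ) + 1 = j ∨ ((i : ℕ) = 0 ∧ (j : ℕ) + 1 = 2 * r) ∨
    (i : ℕ) + r = j)

/-- The chords `p` and `q` cross, `p` is the left one. -/
def Crs (p q : Pt) : Prop := p.1 < q.1 ∧ q.1 < p.2 ∧ p.2 < q.2

/-- No two chords of `P` cross. -/
def NonCr (P : Finset Pt) : Prop := ∀ p ∈ P, ∀ q ∈ P, ¬ Crs p q

/-- `Mono lam F a b N`: a monotone path of length `N` from `a` to `b` with steps of length `1`
and jumps `p.1 → p.2`, `p ∈ F`, of length `lam`. -/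
inductive Mono (lam : ℕ) (F : Finset Pt) (a : ℤ) : ℤ → ℕ → Prop
  | nil : Mono lam F a a 0
  | step {b : ℤ} {N : ℕ} : Mono lam F a b N → Mono lam F a (b + 1) (N + 1)
  | jump {p : Pt} {N : ℕ} : Mono lam F a p.1 N → p ∈ F → p.1 < p.2 → Mono lam F a p.2 (N + lam)

/-- The set of the weighted lengths of the cycles of `G` (`w e` is the length of the edge `e`). -/
def wcs {n : ℕ} (G : SimpleGraph (Fin n)) (w : Sym2 (Fin n) → ℕ) : Set ℕ :=
  {l | ∃ (L : ℕ) (W : ℕ → Fin n), CycSeq G L W ∧ l = ∑ i ∈ range L, w s(W i, W (i + 1))}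

/-- `G` after the suppression of the vertex `z` of degree two with the neighbours `a`, `b`. -/
def supG {n : ℕ} (G : SimpleGraph (Fin n)) (a b z : Fin n) : SimpleGraph (Fin n) where
  Adj u v := u ≠ v ∧ ((G.Adj u v ∧ u ≠ z ∧ v ≠ z) ∨ s(u, v) = s(a, b))
  symm := ⟨fun u v h => ⟨h.1.symm, by
    rcases h.2 with ⟨h1, h2, h3⟩ | h
    · exact Or.inl ⟨h1.symm, h3, h2⟩
    · exact Or.inr (by rw [Sym2.eq_swap]; exact h)⟩⟩
  loopless := ⟨fun _ h => h.1 rfl⟩

open Classical in
/-- The weights after the suppression. -/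
noncomputable def supW {n : ℕ} (w : Sym2 (Fin n) → ℕ) (a b z : Fin n) (e : Sym2 (Fin n)) : ℕ :=
  if e = s(a, b) then w s(a, z) + w s(z, b) else w e

/-- The next vertex and the previous vertex on the cycle `W 0, …, W (L - 1)`. -/
def Nxt {n : ℕ} (L : ℕ) (W : ℕ → Fin n) (i : ℕ) (u : Fin n) : Prop :=
  u = W (i + 1) ∨ (0 < i ∧ u = W (i - 1)) ∨ (i = 0 ∧ u = W (L - 1))

open Classical in
/-- A state of the reduction of the graph `G0` with `n` vertices (all vertices of `G` outside `Y`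
are isolated; the vertices of the cycle `W` outside `X` have degree two). -/
structure St {n : ℕ} (G0 : SimpleGraph (Fin n)) (X : Finset (Fin n)) (e : ℕ)
    (G : SimpleGraph (Fin n)) (w : Sym2 (Fin n) → ℕ) (L : ℕ) (W : ℕ → Fin n)
    (Y : Finset (Fin n)) : Prop where
  cyc : CycSeq G L W
  inY : ∀ u v, G.Adj u v → u ∈ Y
  two : ∀ i < L, W i ∉ X → ∀ u, G.Adj (W i) u → Nxt L W i u
  minor : Minor (G.induce (Y : Set (Fin n))) G0
  eq : wcs G w = cycleSet G0
  pos : ∀ a ∈ G.edgeSet, 1 ≤ w a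
  tot : ∑ a ∈ univ.filter (fun a => a ∈ G.edgeSet), w a + Y.card ≤
    n + (univ.filter (fun a => a ∈ G.edgeSet)).card
  card : Y.card ≤ L + e

end Pool.Agent.CycPl
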