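import Pool.Agent.CycPl.Targets
import Pool.Agent.CycSp.LOCAL
import Pool.Agent.CycSp.Walks

/-!
# The block LAM: a non-crossing family of links gives a difference structure of linear size
-/

set_option autoImplicit false

namespace Pool.Agent.CycPl

open Finset
open Pool.Agent.HubG (cycleSet CycSeq)
open Pool.Agent.CycSp (Pt Cyc offE ZD SparseP append_path close_edge)
open Pool.Agent.Pend (Minor)

namespace LAM_

/-- the `s` smallest elements with respect to an injective function -/
theorem small {α : Type} [DecidableEq α] (f : α → ℤ) (A : Finset α)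
    (hf : ∀ x ∈ A, ∀ y ∈ A, f x = f y → x = y) (s : ℕ) (h : s ≤ A.card) :
    ∃ D ⊆ A, D.card = s ∧ ∀ d ∈ D, ∀ z ∈ A, z ∉ D → f d < f z := by
  induction s with
  | zero => exact ⟨∅, by simp, by simp, by simp⟩
  | succ s ih =>
    obtain ⟨D, hD, hc, hl⟩ := ih (by omega)
    have hne : (A \ D).Nonempty := by
      rw [← Finset.card_pos, Finset.card_sdiff_of_subset hD]
      omega
    obtain ⟨m, hm, hmin⟩ := Finset.exists_min_image (A \ D) f hne
    rw [Finset.mem_sdiff] at hm
    refine ⟨insert m D, ?_, ?_, ?_⟩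
    · intro x hx
      rw [Finset.mem_insert] at hx
      rcases hx with rfl | hx
      · exact hm.1
      · exact hD hx
    · rw [Finset.card_insert_of_notMem hm.2, hc]
    · intro d hd z hz hzD
      rw [Finset.mem_insert, not_or] at hzD
      rw [Finset.mem_insert] at hd
      rcases hd with rfl | hd
      · have h1 := hmin z (Finset.mem_sdiff.mpr ⟨hz, hzD.2⟩)
        rcases lt_or_eq_of_le h1 with h2 | h2
        · exact h2
        · exact absurd (hf _ hm.1 _ hz h2).symm hzD.1
      · exact hl d hd z hz hzD.2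

variable {V : Type} {Gr : SimpleGraph V} {L : ℤ} {c v : ℤ → V} {P : Finset Pt} {lam : ℕ}

/-- many links from the same place -/
theorem star (h4 : Pool.Agent.CycSp.T_FAN) (hC : Cyc Gr L c v P lam) (s b : ℕ) (x : ℤ)
    (T : Finset Pt) (hT : T ⊆ P) (hx : ∀ p ∈ T, p.1 = x) (hb : s + b ≤ T.card) :
    ZD Gr s b := by
  classical
  have hinj : ∀ p ∈ T, ∀ q ∈ T, p.2 = q.2 → p = q := fun p hp q hq h =>
    hC.disty p (hT hp) q (hT hq) h
  obtain ⟨D, hD, hc, hl⟩ := small (fun p : Pt => p.2) T hinj s (by omega)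
  refine ⟨(T \ D).image (fun p => p.2 + 2), D.image (fun p => p.2), ?_, ?_, ?_⟩
  · rw [Finset.card_image_of_injOn, hc]
    intro p hp q hq h
    exact hinj p (hD hp) q (hD hq) h
  · rw [Finset.card_image_of_injOn, Finset.card_sdiff_of_subset hD]
    · omega
    · intro p hp q hq h
      have hp' := (Finset.mem_sdiff.mp hp).1
      have hq' := (Finset.mem_sdiff.mp hq).1
      simp only at h
      exact hinj p hp' q hq' (by omega)
  · intro z hz d hd
    rw [Finset.mem_image] at hz hd
    obtain ⟨p, hp, rfl⟩ := hz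
    obtain ⟨q, hq, rfl⟩ := hd
    rw [Finset.mem_sdiff] at hp
    have hlt := hl q hq p hp.1 hp.2
    have hp1 : (x, p.2) ∈ P := by
      have := hT hp.1
      rw [← hx p hp.1]
      exact this
    have hq1 : (x, q.2) ∈ P := by
      have := hT (hD hq)
      rw [← hx q (hD hq)]
      exact this
    obtain ⟨N, hN, hNe⟩ := h4 V Gr L c v P lam hC x q.2 p.2 hq1 hp1 hlt
    exact ⟨N, hN, by rw [hNe]; ring⟩

/-- the cycle through two monotone paths -/
theorem two_paths (h2 : T_MONOW) (hC : Cyc Gr L c v P lam) (x : ℤ) (F1 F2 : Finset Pt)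
    (hF1 : F1 ⊆ P) (hF2 : F2 ⊆ P) (hx0 : 0 < x) (hx1 : x < L - 1) (h22 : ∀ p ∈ F2, x ≤ p.1)
    (N1 N2 : ℕ) (m1 : Mono lam F1 0 x N1) (m2 : Mono lam F2 x (L - 1) N2) :
    N1 + N2 + 1 ∈ cycleSet Gr := by
  obtain ⟨w1, p1, l1, s1⟩ := h2 V Gr L c v P lam hC F1 hF1 0 x N1 le_rfl (by omega) m1
  obtain ⟨w2, p2, l2, s2⟩ := h2 V Gr L c v P lam hC F2 hF2 x (L - 1) N2 (by omega) (by omega) m2
  have hN1 : 1 ≤ N1 := by
    by_contra hcon
    have h0 : w1.length = 0 := by omega
    have := SimpleGraph.Walk.eq_of_length_eq_zero h0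
    have := hC.inj 0 x le_rfl (by omega) (by omega) (by omega) this
    omega
  have hN2 : 1 ≤ N2 := by
    by_contra hcon
    have h0 : w2.length = 0 := by omega
    have := SimpleGraph.Walk.eq_of_length_eq_zero h0
    have := hC.inj x (L - 1) (by omega) (by omega) (by omega) (by omega) this
    omega
  obtain ⟨w, hw, hwl, -⟩ := append_path (N := (N1 : ℤ)) (M := (N2 : ℤ))
    ⟨w1, p1, by rw [l1], s1⟩ ⟨w2, p2, by rw [l2], s2⟩ (by
      intro z hz1 hz2
      rcases hz1 with ⟨j, j1, j2, rfl⟩ | ⟨hl, p, hp, p1, p2, rfl⟩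
      · rcases hz2 with ⟨k, k1, k2, hk⟩ | ⟨hl, q, hq, q1, q2, hk⟩
        · have := hC.inj j k j1 (by omega) (by omega) (by omega) hk
          have : j = x := by omega
          rw [this]
        · exfalso
          rcases hC.link with ⟨hl', _⟩ | ⟨_, _, hva, _⟩
          · omega
          · exact hva q (hF2 hq) j j1 (by omega) hk.symm
      · exfalso
        rcases hC.link with ⟨hl', _⟩ | ⟨_, _, hva, hvv⟩
        · omega
        · rcases hz2 with ⟨k, k1, k2, hk⟩ | ⟨hl, q, hq, q1, q2, hk⟩
          · exact hva p (hF1 hp) k (by omega) (by omega) hk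
          · have h5 := hvv p (hF1 hp) q (hF2 hq) hk
            omega)
  have hwl' : w.length = N1 + N2 := by exact_mod_cast hwl
  have := close_edge w hw (by omega) hC.last.symm
  rw [hwl'] at this
  exact this

end LAM_

open LAM_

theorem p_LAM (h1 : T_MONOC) (h2 : T_MONOW) (h3 : T_RING)
    (h4 : Pool.Agent.CycSp.T_FAN) : T_LAM := by
  classical
  intro V Gr L c v P lam s hC hN hs hm
  have hlam : lam = 1 ∨ lam = 2 := by
    rcases hC.link with ⟨h, _⟩ | ⟨h, _⟩
    · exact Or.inl h
    · exact Or.inr h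
  -- the splitting point
  have hex : ∃ x ∈ P.image (fun p => p.1), s ≤ (P.filter (fun p => x ≤ p.1)).card ∧
      (P.filter (fun p => x < p.1)).card < s := by
    have hPne : P.Nonempty := by
      rw [← Finset.card_pos]
      omega
    set A := (P.image (fun p => p.1)).filter (fun x => s ≤ (P.filter (fun p => x ≤ p.1)).card)
      with hA
    have hAne : A.Nonempty := by
      obtain ⟨p0, hp0, hmin⟩ := Finset.exists_min_image P (fun p => p.1) hPne
      refine ⟨p0.1, ?_⟩
      rw [hA, Finset.mem_filter]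
      refine ⟨Finset.mem_image_of_mem _ hp0, ?_⟩
      have : P.filter (fun p => p0.1 ≤ p.1) = P := by
        rw [Finset.filter_eq_self]
        exact hmin
      rw [this]
      omega
    obtain ⟨x, hx, hmax⟩ := Finset.exists_max_image A id hAne
    have hx' := hx
    rw [hA, Finset.mem_filter] at hx'
    refine ⟨x, hx'.1, hx'.2, ?_⟩
    by_contra hcon
    push Not at hcon
    have hne : (P.filter (fun p => x < p.1)).Nonempty := by
      rw [← Finset.card_pos]
      omega
    obtain ⟨p1, hp1, hmin⟩ := Finset.exists_min_image _ (fun p => p.1) hne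
    have hp1' := hp1
    rw [Finset.mem_filter] at hp1'
    have : p1.1 ∈ A := by
      rw [hA, Finset.mem_filter]
      refine ⟨Finset.mem_image_of_mem _ hp1'.1, hcon.trans (Finset.card_le_card ?_)⟩
      intro q hq
      have := hmin q hq
      rw [Finset.mem_filter] at hq ⊢
      exact ⟨hq.1, this⟩
    have := hmax _ this
    simp only [id] at this
    omega
  obtain ⟨x, hxP, hxs, hxs'⟩ := hex
  set F1 := P.filter (fun p => p.2 ≤ x) with hF1
  set F2 := P.filter (fun p => p.1 < x ∧ x < p.2) with hF2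
  set S := P.filter (fun p => p.1 = x) with hS
  set R := P.filter (fun p => x < p.1) with hR
  have hsum : P.card ≤ F1.card + F2.card + S.card + R.card := by
    have hsub : P ⊆ F1 ∪ F2 ∪ S ∪ R := by
      intro p hp
      simp only [Finset.mem_union, hF1, hF2, hS, hR, Finset.mem_filter]
      rcases lt_trichotomy p.1 x with h | h | h
      · rcases le_or_gt p.2 x with h' | h'
        · exact Or.inl (Or.inl (Or.inl ⟨hp, h'⟩))
        · exact Or.inl (Or.inl (Or.inr ⟨hp, h, h'⟩))
      · exact Or.inl (Or.inr ⟨hp, h⟩)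
      · exact Or.inr ⟨hp, h⟩
    refine (Finset.card_le_card hsub).trans ?_
    have a1 := Finset.card_union_le (F1 ∪ F2 ∪ S) R
    have a2 := Finset.card_union_le (F1 ∪ F2) S
    have a3 := Finset.card_union_le F1 F2
    omega
  have hcases : P.card ≤ 4 * F1.card ∨ P.card ≤ 4 * F2.card ∨ P.card ≤ 4 * S.card := by omega
  rcases hcases with hA | hB | hD
  · -- case A
    have hF1P : F1 ⊆ P := Finset.filter_subset _ _
    have hF1ne : F1.Nonempty := by
      rw [← Finset.card_pos]
      omega
    obtain ⟨p0, hp0⟩ := hF1ne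
    have hp0' := (Finset.mem_filter.mp hp0)
    have hm0 := hC.mem p0 hp0'.1
    have hx0 : 0 < x := by
      have : (0 : ℤ) ≤ lam := by positivity
      omega
    obtain ⟨X1, hX1c, hX1⟩ := h1 lam F1 0 x hlam (by omega)
      (fun p hp q hq => hN p (hF1P hp) q (hF1P hq))
      (fun p hp => ⟨(hC.mem p (hF1P hp)).1, (hC.mem p (hF1P hp)).2.1, (Finset.mem_filter.mp hp).2⟩)
      (fun p hp q hq h => hC.disty p (hF1P hp) q (hF1P hq) h)
    set G := P.filter (fun p => x ≤ p.1) with hG
    have hGP : G ⊆ P := Finset.filter_subset _ _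
    have hGne : G.Nonempty := by
      rw [← Finset.card_pos]
      omega
    obtain ⟨q0, hq0⟩ := hGne
    have hq0' := (Finset.mem_filter.mp hq0)
    have hm1 := hC.mem q0 hq0'.1
    have hx1 : x < L - 1 := by
      have : (0 : ℤ) ≤ lam := by positivity
      omega
    obtain ⟨X2, hX2c, hX2⟩ := h1 lam G x (L - 1) hlam (by omega)
      (fun p hp q hq => hN p (hGP hp) q (hGP hq))
      (fun p hp => ⟨(Finset.mem_filter.mp hp).2, (hC.mem p (hGP hp)).2.1, by
        have := (hC.mem p (hGP hp)).2.2
        omega⟩)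
      (fun p hp q hq h => hC.disty p (hGP hp) q (hGP hq) h)
    obtain ⟨D0, hD0, hD0c⟩ := Finset.exists_subset_card_eq (s := X2) (n := s) (by omega)
    refine ⟨X1.card, by omega, X1.image (fun N : ℕ => (N : ℤ) + 1),
      D0.image (fun N : ℕ => -(N : ℤ)),
      ?_, ?_, ?_⟩
    · rw [Finset.card_image_of_injective, hD0c]
      intro a b hab
      simpa using hab
    · rw [Finset.card_image_of_injective]
      intro a b hab
      simpa using hab
    · intro z hz d hd
      rw [Finset.mem_image] at hz hd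
      obtain ⟨N1, hN1, rfl⟩ := hz
      obtain ⟨N2, hN2, rfl⟩ := hd
      refine ⟨N1 + N2 + 1, two_paths h2 hC x F1 G hF1P hGP hx0 hx1
        (fun p hp => (Finset.mem_filter.mp hp).2) N1 N2 (hX1 N1 hN1) (hX2 N2 (hD0 hN2)), ?_⟩
      push_cast
      ring
  · -- case B
    have hF2P : F2 ⊆ P := Finset.filter_subset _ _
    have hnest : ∀ p ∈ F2, ∀ q ∈ F2, q.2 < p.2 → p.1 ≤ q.1 := by
      intro p hp q hq h
      by_contra hcon
      push Not at hcon
      have hp' := Finset.mem_filter.mp hp
      have hq' := Finset.mem_filter.mp hq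
      exact hN q hq'.1 p hp'.1 ⟨hcon, by omega, h⟩
    have hinj : ∀ p ∈ F2, ∀ q ∈ F2, p.2 = q.2 → p = q := fun p hp q hq h =>
      hC.disty p (hF2P hp) q (hF2P hq) h
    obtain ⟨I, hI, hIc, hIl⟩ := small (fun p : Pt => p.2) F2 hinj s (by omega)
    have hIne : I.Nonempty := by
      rw [← Finset.card_pos]
      omega
    obtain ⟨q0, hq0, hmax⟩ := Finset.exists_max_image I (fun p => p.2) hIne
    have hq01 : ∀ q ∈ I, q0.1 ≤ q.1 := by
      intro q hq
      have h5 := hmax q hq
      rcases lt_or_eq_of_le h5 with h6 | h6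
      · exact hnest q0 (hI hq0) q (hI hq) h6
      · rw [hinj q (hI hq) q0 (hI hq0) h6]
    have hlninj : ∀ p ∈ F2, ∀ q ∈ F2, p.2 - p.1 = q.2 - q.1 → p = q := by
      intro p hp q hq h
      rcases lt_trichotomy p.2 q.2 with h5 | h5 | h5
      · have := hnest q hq p hp h5
        omega
      · exact hinj p hp q hq h5
      · have := hnest p hp q hq h5
        omega
    set O := F2 \ I with hO
    have hOc : O.card = F2.card - s := by
      rw [hO, Finset.card_sdiff_of_subset hI, hIc]
    set O1 := O.filter (fun p => p.1 < q0.1) with hO1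
    set O2 := O.filter (fun p => ¬ p.1 < q0.1) with hO2
    have hOs : O1.card + O2.card = O.card := Finset.card_filter_add_card_filter_not _
    have hcases2 : O.card ≤ 2 * O1.card ∨ O.card ≤ 2 * O2.card := by omega
    have hO2' : ∀ p ∈ O2, p.1 = q0.1 := by
      intro p hp
      have hp' := Finset.mem_filter.mp hp
      have hp'' := Finset.mem_sdiff.mp hp'.1
      have h5 := hIl q0 hq0 p hp''.1 hp''.2
      have h6 := hnest p hp''.1 q0 (hI hq0) h5
      have h7 := hp'.2
      omega
    rcases hcases2 with hc1 | hc2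
    · refine ⟨O1.card, by omega, O1.image (fun p => p.2 - p.1 + 2 * lam),
        I.image (fun p => p.2 - p.1), ?_, ?_, ?_⟩
      · rw [Finset.card_image_of_injOn, hIc]
        intro p hp q hq h
        exact hlninj p (hI hp) q (hI hq) h
      · rw [Finset.card_image_of_injOn]
        intro p hp q hq h
        have hp' := (Finset.mem_sdiff.mp (Finset.mem_filter.mp hp).1).1
        have hq' := (Finset.mem_sdiff.mp (Finset.mem_filter.mp hq).1).1
        simp only at h
        exact hlninj p hp' q hq' (by omega)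
      · intro z hz d hd
        rw [Finset.mem_image] at hz hd
        obtain ⟨p, hp, rfl⟩ := hz
        obtain ⟨q, hq, rfl⟩ := hd
        have hp' := Finset.mem_filter.mp hp
        have hp'' := Finset.mem_sdiff.mp hp'.1
        have h5 := hIl q hq p hp''.1 hp''.2
        have h6 := hq01 q hq
        obtain ⟨N, hN1, hN2⟩ := h3 V Gr L c v P lam hC p (hF2P hp''.1) q (hF2P (hI hq))
          (by have := hp'.2; omega) h5
        exact ⟨N, hN1, by rw [hN2]; ring⟩
    · refine ⟨O2.card - s, by omega, star h4 hC s _ q0.1 O2 ?_ hO2' (by omega)⟩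
      intro p hp
      exact hF2P (Finset.mem_sdiff.mp (Finset.mem_filter.mp hp).1).1
  · -- case C
    refine ⟨S.card - s, by omega, star h4 hC s _ x S (Finset.filter_subset _ _) ?_ (by omega)⟩
    intro p hp
    exact (Finset.mem_filter.mp hp).2

end Pool.Agent.CycPl
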