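import Pool.Agent.CycPl.Targets

/-!
# A non-crossing family has many lengths of monotone paths
-/

set_option autoImplicit false

namespace Pool.Agent.CycPl

open Finset
open Pool.Agent.CycSp (Pt)

namespace MONOC_

theorem mono_of_subset {lam : ℕ} {F F' : Finset Pt} (hF : F ⊆ F') {a b : ℤ} {N : ℕ}
    (h : Mono lam F a b N) : Mono lam F' a b N := by
  induction h with
  | nil => exact Mono.nil
  | step _ ih => exact ih.step
  | jump _ hp hlt ih => exact ih.jump (hF hp) hlt

theorem trans {lam : ℕ} {F : Finset Pt} {a m b : ℤ} {N M : ℕ}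
    (h : Mono lam F a m N) (h' : Mono lam F m b M) : Mono lam F a b (N + M) := by
  induction h' with
  | nil => exact h
  | @step b M _ ih =>
    have := ih.step
    rwa [Nat.add_assoc] at this
  | @jump p M _ hp hlt ih =>
    have := ih.jump hp hlt
    rwa [Nat.add_assoc] at this

theorem steps (lam : ℕ) (F : Finset Pt) (a : ℤ) (k : ℕ) : Mono lam F a (a + k) k := by
  induction k with
  | zero =>
    have : a + ((0 : ℕ) : ℤ) = a := by simp
    rw [this]
    exact Mono.nil
  | succ k ih =>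
    have := ih.step
    have e : a + ((k + 1 : ℕ) : ℤ) = a + (k : ℤ) + 1 := by push_cast; ring
    rw [e]
    exact this

theorem le {lam : ℕ} {F : Finset Pt} {a b : ℤ} {N : ℕ} (h : Mono lam F a b N) : a ≤ b := by
  induction h with
  | nil => exact le_refl _
  | step _ ih => omega
  | jump _ _ h ih => omega

theorem split {lam : ℕ} {F : Finset Pt} {a b : ℤ} {N : ℕ} (h : Mono lam F a b N) :
    ∀ m : ℤ, a ≤ m → m ≤ b → (∀ q ∈ F, ¬ (q.1 < m ∧ m < q.2)) →
      ∃ N₁ N₂ : ℕ, N = N₁ + N₂ ∧ Mono lam F a m N₁ ∧ Mono lam F m b N₂ := by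
  induction h with
  | nil =>
    intro m h1 h2 _
    have : m = a := by omega
    subst this
    exact ⟨0, 0, rfl, Mono.nil, Mono.nil⟩
  | @step b N h0 ih =>
    intro m h1 h2 hm
    rcases le_or_gt m b with h3 | h3
    · obtain ⟨N₁, N₂, e, g1, g2⟩ := ih m h1 h3 hm
      exact ⟨N₁, N₂ + 1, by omega, g1, g2.step⟩
    · have : m = b + 1 := by omega
      subst this
      exact ⟨N + 1, 0, rfl, h0.step, Mono.nil⟩
  | @jump p N h0 hp hlt ih =>
    intro m h1 h2 hm
    rcases le_or_gt m p.1 with h3 | h3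
    · obtain ⟨N₁, N₂, e, g1, g2⟩ := ih m h1 h3 hm
      exact ⟨N₁, N₂ + lam, by omega, g1, g2.jump hp hlt⟩
    · have : m = p.2 := by
        have := hm p hp
        omega
      subst this
      exact ⟨N + lam, 0, rfl, h0.jump hp hlt, Mono.nil⟩

theorem inv {lam : ℕ} {F : Finset Pt} {a b : ℤ} {N : ℕ} (h : Mono lam F a b N) :
    (b = a ∧ N = 0) ∨ (∃ b' N', b = b' + 1 ∧ N = N' + 1 ∧ Mono lam F a b' N') ∨
      ∃ p N', p ∈ F ∧ b = p.2 ∧ N = N' + lam ∧ Mono lam F a p.1 N' := by
  cases h with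
  | nil => exact Or.inl ⟨rfl, rfl⟩
  | step h0 => exact Or.inr (Or.inl ⟨_, _, rfl, rfl, h0⟩)
  | jump h0 hp _ => exact Or.inr (Or.inr ⟨_, _, hp, rfl, rfl, h0⟩)

theorem zero {lam : ℕ} (hl : 1 ≤ lam) {F : Finset Pt} {a b : ℤ} {N : ℕ}
    (h : Mono lam F a b N) (hN : N = 0) : b = a := by
  rcases inv h with h1 | ⟨b', N', _, h1, _⟩ | ⟨p, N', _, _, h1, _⟩
  · exact h1.1
  · omega
  · omega

theorem one {lam : ℕ} (hl : 1 ≤ lam) {F : Finset Pt} {a b : ℤ} {N : ℕ}
    (h : Mono lam F a b N) (hN : N = 1) : b = a + 1 ∨ (lam = 1 ∧ (a, b) ∈ F) := by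
  rcases inv h with h1 | ⟨b', N', h0, h1, h2⟩ | ⟨p, N', hp, h0, h1, h2⟩
  · omega
  · have := zero hl h2 (by omega)
    left
    rw [h0, this]
  · have := zero hl h2 (by omega)
    right
    refine ⟨by omega, ?_⟩
    rw [h0, ← this]
    exact hp

theorem lam_lt {lam : ℕ} (hl : lam = 1 ∨ lam = 2) {F : Finset Pt} {x y : ℤ} {N : ℕ}
    (h : Mono lam F x y N) (hxy : (x, y) ∉ F) (hlt : x + lam < y) : lam < N := by
  have hl1 : 1 ≤ lam := by omega
  by_contra hcon
  have hN : N = 0 ∨ N = 1 ∨ (N = 2 ∧ lam = 2) := by omega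
  rcases hN with hN | hN | ⟨hN, h2⟩
  · have := zero hl1 h hN
    omega
  · rcases one hl1 h hN with h1 | h1
    · omega
    · exact hxy h1.2
  · rcases inv h with h1 | ⟨b', N', h0, h1, h3⟩ | ⟨p, N', hp, h0, h1, h3⟩
    · omega
    · rcases one hl1 h3 (by omega) with h4 | h4
      · omega
      · omega
    · have := zero hl1 h3 (by omega)
      apply hxy
      rw [h0, ← this]
      exact hp

end MONOC_

open MONOC_ in
theorem p_MONOC : T_MONOC := by
  intro lam F
  induction hk : F.card using Nat.strong_induction_on generalizing F with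
  | _ k IH =>
  intro a b hl hab hNC hF hinj
  rcases F.eq_empty_or_nonempty with rfl | hne
  · refine ⟨{(b - a).toNat}, by simp at hk; simp; omega, ?_⟩
    intro N hN
    rw [mem_singleton] at hN
    subst hN
    have := steps lam ∅ a (b - a).toNat
    have e : a + (((b - a).toNat : ℕ) : ℤ) = b := by omega
    rwa [e] at this
  · obtain ⟨p₀, hp₀, hmin⟩ := exists_min_image F (fun q => q.1) hne
    obtain ⟨p, hp, hmax⟩ := exists_max_image (F.filter fun q => q.1 = p₀.1) (fun q => q.2)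
      ⟨p₀, mem_filter.2 ⟨hp₀, rfl⟩⟩
    rw [mem_filter] at hp
    obtain ⟨hpF, hp1⟩ := hp
    have hcard : (F.erase p).card = k - 1 := by rw [card_erase_of_mem hpF, hk]
    have hkpos : 0 < k := by rw [← hk]; exact hne.card_pos
    have hsub : F.erase p ⊆ F := erase_subset _ _
    obtain ⟨X, hX, hXm⟩ := IH (k - 1) (by omega) (F.erase p) hcard a b hl hab
      (fun q hq r hr => hNC q (hsub hq) r (hsub hr)) (fun q hq => hF q (hsub hq))
      (fun q hq r hr => hinj q (hsub hq) r (hsub hr))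
    have hXne : X.Nonempty := by
      rw [← card_pos]
      omega
    have hpb := hF p hpF
    obtain ⟨N₁, Nr, e1, g1, gr⟩ := split (hXm _ (X.min'_mem hXne)) p.1 hpb.1 (by omega) (by
      rintro q hq ⟨h1, -⟩
      have : p₀.1 ≤ q.1 := hmin q (hsub hq)
      omega)
    obtain ⟨N₂, N₃, e2, g2, g3⟩ := split gr p.2 (by omega) (by omega) (by
      rintro q hq ⟨h1, h2⟩
      have h3 : p₀.1 ≤ q.1 := hmin q (hsub hq)
      rcases h3.lt_or_eq with h4 | h4
      · exact hNC p hpF q (hsub hq) ⟨by omega, h1, h2⟩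
      · have : q.2 ≤ p.2 := hmax q (mem_filter.2 ⟨hsub hq, h4.symm⟩)
        omega)
    have h5 : lam < N₂ := lam_lt hl g2 (notMem_erase p F) hpb.2.1
    have h6 : Mono lam F a b (N₁ + lam + N₃) := by
      refine trans ((mono_of_subset hsub g1).jump hpF (by omega)) (mono_of_subset hsub g3)
    have h7 : N₁ + lam + N₃ ∉ X := by
      intro h
      have := X.min'_le _ h
      omega
    refine ⟨insert (N₁ + lam + N₃) X, ?_, ?_⟩
    · rw [card_insert_of_notMem h7]
      omega
    · intro N hN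
      rw [mem_insert] at hN
      rcases hN with rfl | hN
      · exact h6
      · exact mono_of_subset hsub (hXm N hN)

end Pool.Agent.CycPl
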