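import Pool.Agent.CycPl.Targets
import Pool.Agent.CycSp.BLOCKP
import Pool.Agent.CycSp.LOCAL

/-!
# Monotone paths are paths of the graph, and the cycle through two nested links
-/

set_option autoImplicit false

namespace Pool.Agent.CycPl

open Finset
open Pool.Agent.HubG (cycleSet CycSeq)
open Pool.Agent.CycSp (Pt Cyc offE ZD SparseP)
open Pool.Agent.CycSp.BP (glue crail linkw)

namespace MONOW_

theorem mono_le {lam : ℕ} {F : Finset Pt} {a b : ℤ} {N : ℕ} (h : Mono lam F a b N) :
    a ≤ b := by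
  induction h with
  | nil => exact le_refl _
  | step _ ih => omega
  | jump _ _ h ih => omega

/-- append one new vertex to a path -/
theorem snoc {V : Type} {Gr : SimpleGraph V} {x y z : V} (w : Gr.Walk x y) (h : w.IsPath)
    (hyz : Gr.Adj y z) (hz : z ∉ w.support) :
    ∃ w' : Gr.Walk x z, w'.IsPath ∧ w'.length = w.length + 1 ∧
      ∀ u ∈ w'.support, u ∈ w.support ∨ u = z := by
  obtain ⟨w', a, b, d⟩ := glue w hyz (SimpleGraph.Walk.nil : Gr.Walk z z) h
    SimpleGraph.Walk.IsPath.nil (by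
      intro u hu hu'
      rw [SimpleGraph.Walk.support_nil, List.mem_singleton] at hu'
      exact hz (hu' ▸ hu))
  refine ⟨w', a, ?_, ?_⟩
  · rw [b, SimpleGraph.Walk.length_nil]
  · intro u hu
    rcases d u hu with h1 | h1
    · exact Or.inl h1
    · rw [SimpleGraph.Walk.support_nil, List.mem_singleton] at h1
      exact Or.inr h1

end MONOW_

open MONOW_

theorem p_MONOW : T_MONOW := by
  intro V Gr L c v P lam H F hF a b N ha hb hm
  induction hm with
  | nil =>
    refine ⟨SimpleGraph.Walk.nil, SimpleGraph.Walk.IsPath.nil, SimpleGraph.Walk.length_nil, ?_⟩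
    intro u hu
    rw [SimpleGraph.Walk.support_nil, List.mem_singleton] at hu
    exact Or.inl ⟨a, le_refl _, le_refl _, hu⟩
  | @step b N hm ih =>
    have hab := mono_le hm
    obtain ⟨w, w1, w2, w3⟩ := ih (by omega)
    obtain ⟨w', a1, a2, a3⟩ := snoc w w1 (H.adj b (by omega) hb) (by
      intro hu
      rcases w3 _ hu with ⟨j, j1, j2, j3⟩ | ⟨hl, p, hp, p1, p2, p3⟩
      · have := H.inj _ _ (by omega) hb (by omega) (by omega) j3
        omega
      · rcases H.link with ⟨hl', -⟩ | ⟨-, -, hvc, -⟩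
        · omega
        · exact hvc p (hF hp) (b + 1) (by omega) hb p3.symm)
    refine ⟨w', a1, by rw [a2, w2], ?_⟩
    intro u hu
    rcases a3 u hu with h | h
    · rcases w3 u h with ⟨j, j1, j2, j3⟩ | ⟨hl, p, hp, p1, p2, p3⟩
      · exact Or.inl ⟨j, j1, by omega, j3⟩
      · exact Or.inr ⟨hl, p, hp, p1, by omega, p3⟩
    · exact Or.inl ⟨b + 1, by omega, le_refl _, h⟩
  | @jump p N hm hp hpp ih =>
    have hab := mono_le hm
    have hpP := hF hp
    obtain ⟨w, w1, w2, w3⟩ := ih (by omega)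
    rcases H.link with ⟨hl, hadj⟩ | ⟨hl, hadj, hvc, hvv⟩
    · obtain ⟨w', a1, a2, a3⟩ := snoc w w1 (hadj p hpP) (by
        intro hu
        rcases w3 _ hu with ⟨j, j1, j2, j3⟩ | ⟨hl', -⟩
        · have := H.inj _ _ (by omega) hb (by omega) (by omega) j3
          omega
        · omega)
      refine ⟨w', a1, by rw [a2, w2, hl], ?_⟩
      intro u hu
      rcases a3 u hu with h | h
      · rcases w3 u h with ⟨j, j1, j2, j3⟩ | ⟨hl', -⟩
        · exact Or.inl ⟨j, j1, by omega, j3⟩
        · omega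
      · exact Or.inl ⟨p.2, by omega, le_refl _, h⟩
    · obtain ⟨w', a1, a2, a3⟩ := snoc w w1 (hadj p hpP).1 (by
        intro hu
        rcases w3 _ hu with ⟨j, j1, j2, j3⟩ | ⟨-, q, hq, q1, q2, q3⟩
        · exact hvc p hpP j (by omega) (by omega) j3
        · have := hvv p hpP q (hF hq) q3
          omega)
      obtain ⟨w'', b1, b2, b3⟩ := snoc w' a1 (hadj p hpP).2 (by
        intro hu
        rcases a3 _ hu with h | h
        · rcases w3 _ h with ⟨j, j1, j2, j3⟩ | ⟨-, q, hq, q1, q2, q3⟩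
          · have := H.inj _ _ (by omega) hb (by omega) (by omega) j3
            omega
          · exact hvc q (hF hq) p.2 (by omega) hb q3.symm
        · exact hvc p hpP p.2 (by omega) hb h.symm)
      refine ⟨w'', b1, by rw [b2, a2, w2, hl], ?_⟩
      intro u hu
      rcases b3 u hu with h | h
      · rcases a3 u h with h | h
        · rcases w3 u h with ⟨j, j1, j2, j3⟩ | ⟨-, q, hq, q1, q2, q3⟩
          · exact Or.inl ⟨j, j1, by omega, j3⟩
          · exact Or.inr ⟨hl, q, hq, q1, by omega, q3⟩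
        · exact Or.inr ⟨hl, p, hp, hab, hpp, h⟩
      · exact Or.inl ⟨p.2, by omega, le_refl _, h⟩

theorem p_RING : T_RING := by
  intro V Gr L c v P lam H p hp q hq h1 h2
  obtain ⟨p1, p2, p3⟩ := H.mem p hp
  obtain ⟨q1, q2, q3⟩ := H.mem q hq
  have hlam : (0 : ℤ) ≤ lam := by positivity
  obtain ⟨w, w1, w2, w3⟩ := crail H p.1 q.1 p1 h1.le (by omega)
  obtain ⟨w', w1', w2', w3'⟩ := crail H q.2 p.2 (by omega) h2.le p3
  obtain ⟨W, W1, W2, W3⟩ := linkw H q hq w w' w1 w1'
    (by
      intro u hu hu'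
      obtain ⟨i, hi1, hi2, hi3⟩ := w3 u hu
      obtain ⟨j, hj1, hj2, hj3⟩ := w3' u hu'
      have := H.inj i j (by omega) (by omega) (by omega) (by omega) (hi3 ▸ hj3)
      omega)
    (by
      intro u hu
      obtain ⟨i, hi1, hi2, hi3⟩ := w3 u hu
      exact ⟨i, by omega, by omega, hi3⟩)
    (by
      intro u hu
      obtain ⟨i, hi1, hi2, hi3⟩ := w3' u hu
      exact ⟨i, by omega, by omega, hi3⟩)
  have hlen : 2 ≤ W.length := by
    rcases H.link with h | h <;> omega
  rcases H.link with ⟨hl, hadj⟩ | ⟨hl, hadj, hvc, hvv⟩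
  · refine ⟨W.length + 1, Pool.Agent.CycSp.close_edge W W1 hlen (hadj p hp), ?_⟩
    rw [W2]
    push_cast
    omega
  · refine ⟨W.length + 2, Pool.Agent.CycSp.close_hub W W1 (by omega) ?_ (hadj p hp).1.symm
      (hadj p hp).2, ?_⟩
    · intro hu
      rcases W3 _ hu with h | h | ⟨-, h⟩
      · obtain ⟨i, hi1, hi2, hi3⟩ := w3 _ h
        exact hvc p hp i (by omega) (by omega) hi3
      · obtain ⟨i, hi1, hi2, hi3⟩ := w3' _ h
        exact hvc p hp i (by omega) (by omega) hi3
      · have := hvv p hp q hq h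
        omega
    · rw [W2]
      push_cast
      omega

end Pool.Agent.CycPl
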