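import Pool.Agent.CycPl.Targets
import Pool.Agent.Pend.MSUB

/-!
# RED: the reduction to few vertices
-/

set_option autoImplicit false

namespace Pool.Agent.CycPl

open Finset
open Pool.Agent.HubG (cycleSet CycSeq)
open Pool.Agent.CycSp (Pt Cyc offE ZD SparseP CE)
open Pool.Agent.Pend (Minor)

/-- iteration of STEP -/
theorem red_iter (h1 : T_STEP) {n : ℕ} (G0 : SimpleGraph (Fin n)) (X : Finset (Fin n)) (e : ℕ)
    (hX : X.card ≤ e) : ∀ (L : ℕ) (G : SimpleGraph (Fin n)) (w : Sym2 (Fin n) → ℕ)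
    (W : ℕ → Fin n) (Y : Finset (Fin n)), St G0 X e G w L W Y →
    ∃ (L' : ℕ) (G' : SimpleGraph (Fin n)) (w' : Sym2 (Fin n) → ℕ) (W' : ℕ → Fin n)
      (Y' : Finset (Fin n)), St G0 X e G' w' L' W' Y' ∧ L' ≤ 2 * e + 3 := by
  intro L
  induction L with
  | zero =>
    intro G w W Y h
    exact ⟨0, G, w, W, Y, h, by omega⟩
  | succ L ih =>
    intro G w W Y h
    by_cases hL : L + 1 ≤ 2 * e + 3
    · exact ⟨L + 1, G, w, W, Y, h, hL⟩
    · obtain ⟨G', w', W', Y', h'⟩ := h1 n G0 X e G w (L + 1) W Y h (by omega) (by omega)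
      exact ih G' w' W' Y' h'

theorem red_start (h2 : T_CSW) {n e : ℕ} {G : SimpleGraph (Fin n)} {L : ℕ} {W : ℕ → Fin n}
    (hc : CycSeq G L W) (hn : n - L ≤ e) :
    St G ((offE G L W).image Prod.fst) e G (fun _ => 1) L W univ where
  cyc := hc
  inY := fun u _ _ => mem_univ u
  two := by
    classical
    intro i hi hX u hu
    have h3 : CE L W (W i) u := by
      by_contra h4
      apply hX
      rw [mem_image]
      refine ⟨(W i, u), ?_, rfl⟩
      unfold offE
      rw [mem_filter]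
      exact ⟨mem_univ _, hu, h4⟩
    have h5 := hc.three
    rcases h3 with ⟨j, hj, ⟨h6, h7⟩ | ⟨h6, h7⟩⟩ | ⟨h6, h7⟩ | ⟨h6, h7⟩
    · have h8 := hc.inj i j hi (by omega) h6
      subst h8
      exact Or.inl h7
    · have h8 := hc.inj i (j + 1) hi (by omega) h6
      subst h8
      exact Or.inr (Or.inl ⟨by omega, by rw [Nat.add_sub_cancel]; exact h7⟩)
    · have h8 := hc.inj i (L - 1) hi (by omega) h6
      left
      rw [hc.ge (i + 1) (by omega)]
      exact h7
    · have h8 := hc.inj i 0 hi (by omega) h6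
      exact Or.inr (Or.inr ⟨h8, h7⟩)
  minor := by
    refine Pool.Agent.Pend.p_MSUB _ _ _ _ Subtype.val Subtype.val_injective ?_
    intro a b hab
    exact hab
  eq := h2 n G
  pos := fun _ _ => le_refl _
  tot := by
    rw [sum_const, smul_eq_mul, mul_one, card_univ, Fintype.card_fin]
    omega
  card := by
    rw [card_univ, Fintype.card_fin]
    omega

/-- RED: the reduction to few vertices. -/
theorem p_RED (h1 : T_STEP) (h2 : T_CSW) : T_RED := by
  classical
  intro n e G L W hc he hn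
  obtain ⟨L', H, w, W', Y, hS, hL⟩ := red_iter h1 G ((offE G L W).image Prod.fst) e
    (le_trans card_image_le he) L G _ W _ (red_start h2 hc hn)
  refine ⟨H, w, Y, ?_, hS.inY, hS.minor, hS.eq, hS.pos, ?_⟩
  · have := hS.card
    omega
  · have := hS.tot
    omega

end Pool.Agent.CycPl
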