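import Pool.Agent.CycPl.Targets
import Pool.Agent.CycSp.LOCAL

/-!
# CycPl: rotation of a cycle, and cycle lengths in terms of sequences
-/

set_option autoImplicit false

namespace Pool.Agent.CycPl

open Finset
open Pool.Agent.HubG (cycleSet CycSeq)

theorem p_CSW : T_CSW := by
  intro n G
  ext l
  constructor
  · rintro ⟨L, W, h, rfl⟩
    rw [Finset.sum_const, Finset.card_range, smul_eq_mul, mul_one]
    have h3 := h.three
    obtain ⟨w, hw1, hw2, -⟩ := Pool.Agent.HubG.seq_walk G W (L - 1) 0
      (fun i _ hi => h.adj i (by omega))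
      (fun i j _ hi _ hj hij => h.inj i j (by omega) (by omega) hij)
    have hl := h.last
    have h4 := Pool.Agent.CycSp.close_edge w hw1 (by omega) (by
      rw [Nat.zero_add]
      exact hl.symm)
    rw [hw2] at h4
    rwa [Nat.sub_add_cancel (by omega)] at h4
  · intro h
    obtain ⟨W, hW⟩ := Pool.Agent.HubG.exists_cycSeq G l h
    refine ⟨l, W, hW, ?_⟩
    rw [Finset.sum_const, Finset.card_range, smul_eq_mul, mul_one]

theorem p_ROT : T_ROT := by
  intro n G L W k h hk
  have h3 := h.three
  have hL0 : 0 < L := by omega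
  set W' : ℕ → Fin n := fun i => if i < L then W ((i + k) % L) else W k with hW'
  have e1 : ∀ i, i < L → W' i = W ((i + k) % L) := by
    intro i hi
    simp only [hW', if_pos hi]
  have e2 : ∀ i, i < L → W' (i + 1) = W ((i + k + 1) % L) := by
    intro i hi
    by_cases h1 : i + 1 < L
    · rw [e1 _ h1]
      congr 2
      omega
    · have h2 : i + 1 = L := by omega
      have h4 : W' (i + 1) = W k := by
        simp only [hW', if_neg h1]
      rw [h4]
      congr 1
      have h5 : i + k + 1 = k + L := by omega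
      rw [h5, Nat.add_mod_right, Nat.mod_eq_of_lt hk]
  have e3 : ∀ j, j < L → W ((j + 1) % L) = W (j + 1) := by
    intro j hj
    by_cases h1 : j + 1 < L
    · rw [Nat.mod_eq_of_lt h1]
    · have h2 : j + 1 = L := by omega
      rw [h2, Nat.mod_self, h.ge L le_rfl]
  refine ⟨W', ⟨?_, ?_, ?_, ?_, h3⟩, fun i => rfl, fun w => ?_⟩
  · intro s hs
    rw [e1 s (by omega), e2 s (by omega)]
    exact h.adj_mod (s + k)
  · have h1 := h.adj_mod (L - 1 + k)
    rw [e1 (L - 1) (by omega), e1 0 hL0, Nat.zero_add, Nat.mod_eq_of_lt hk]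
    have h5 : L - 1 + k + 1 = k + L := by omega
    rwa [h5, Nat.add_mod_right, Nat.mod_eq_of_lt hk] at h1
  · intro s t hs ht hst
    rw [e1 s hs, e1 t ht] at hst
    have h4 := h.inj _ _ (Nat.mod_lt _ hL0) (Nat.mod_lt _ hL0) hst
    have h5 : (s + k) ≡ (t + k) [MOD L] := h4
    have h6 : s ≡ t [MOD L] := Nat.ModEq.add_right_cancel' k h5
    have h7 : s % L = t % L := h6
    rwa [Nat.mod_eq_of_lt hs, Nat.mod_eq_of_lt ht] at h7
  · intro s hs
    rw [e1 0 hL0, Nat.zero_add, Nat.mod_eq_of_lt hk]
    simp only [hW', if_neg (not_lt.mpr hs)]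
  · have s1 : ∑ i ∈ range L, w s(W' i, W' (i + 1)) =
        ∑ i ∈ range L, w s(W ((i + k) % L), W (((i + k) % L + 1) % L)) := by
      refine Finset.sum_congr rfl fun i hi => ?_
      rw [Finset.mem_range] at hi
      rw [e1 i hi, e2 i hi]
      congr 3
      rw [Nat.mod_add_mod]
    have s2 : ∑ i ∈ range L, w s(W i, W (i + 1)) =
        ∑ i ∈ range L, w s(W i, W ((i + 1) % L)) := by
      refine Finset.sum_congr rfl fun i hi => ?_
      rw [Finset.mem_range] at hi
      rw [e3 i hi]
    rw [s1, s2]
    refine Finset.sum_bij' (fun i _ => (i + k) % L) (fun j _ => (j + (L - k)) % L) ?_ ?_ ?_ ?_ ?_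
    · intro i _
      exact Finset.mem_range.mpr (Nat.mod_lt _ hL0)
    · intro i _
      exact Finset.mem_range.mpr (Nat.mod_lt _ hL0)
    · intro i hi
      rw [Finset.mem_range] at hi
      rw [Nat.mod_add_mod]
      have h5 : i + k + (L - k) = i + L := by omega
      rw [h5, Nat.add_mod_right, Nat.mod_eq_of_lt hi]
    · intro i hi
      rw [Finset.mem_range] at hi
      rw [Nat.mod_add_mod]
      have h5 : i + (L - k) + k = i + L := by omega
      rw [h5, Nat.add_mod_right, Nat.mod_eq_of_lt hi]
    · intro i _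
      rfl

end Pool.Agent.CycPl
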