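import Pool.Agent.CycPl.Targets
import Pool.Agent.Pend.MSUB

/-!
# Few cycle sets with few edges outside of a cycle (job CPL-SMALLX)
-/

set_option autoImplicit false

namespace Pool.Agent.CycPl

open Finset
open Pool.Agent.HubG (cycleSet CycSeq)
open Pool.Agent.CycSp (Pt Cyc offE ZD SparseP)
open Pool.Agent.Pend (Minor)

namespace SMALLX_

open Classical in
/-- the edges -/
noncomputable def ES {N : ℕ} (H : SimpleGraph (Fin N)) : Finset (Sym2 (Fin N)) :=
  univ.filter (fun a => a ∈ H.edgeSet)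

/-- the weighted cycle sets of `H` -/
def SS (n N : ℕ) (H : SimpleGraph (Fin N)) : Set (Set ℕ) :=
  {A : Set ℕ | ∃ w : Sym2 (Fin N) → ℕ, (∀ a ∈ H.edgeSet, 1 ≤ w a) ∧
    ∑ a ∈ ES H, w a ≤ n + (ES H).card ∧ A = wcs H w}

theorem mem_ES {N : ℕ} {H : SimpleGraph (Fin N)} {a : Sym2 (Fin N)} :
    a ∈ ES H ↔ a ∈ H.edgeSet := by
  unfold ES
  simp

theorem ES_card_le {N : ℕ} (H : SimpleGraph (Fin N)) : (ES H).card ≤ Pool.Agent.Pend.eo H := by
  classical
  unfold Pool.Agent.Pend.eo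
  refine le_trans (Finset.card_le_card ?_) (Finset.card_image_le
    (f := fun p : Fin N × Fin N => s(p.1, p.2)))
  intro a ha
  rw [mem_ES] at ha
  induction a using Sym2.ind with
  | _ x y =>
    rw [SimpleGraph.mem_edgeSet] at ha
    rw [Finset.mem_image]
    exact ⟨(x, y), by simpa using ha, rfl⟩

theorem numbers (t κ m : ℕ) (hm : 1 ≤ m) (n : ℕ) :
    (3 * m + 1) * ((κ + 1) ^ (3 * m) * (n + 2 ^ t * (3 * m)).choose (2 ^ t * (3 * m))) ≤
      (4 * (κ + 1) ^ 3 + 3 * 2 ^ t) ^ m *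
        (n + (4 * (κ + 1) ^ 3 + 3 * 2 ^ t) * m).choose ((4 * (κ + 1) ^ 3 + 3 * 2 ^ t) * m) := by
  have h1 : 3 * m + 1 ≤ 4 ^ m := by
    induction m, hm using Nat.le_induction with
    | base => norm_num
    | succ k hk ih =>
      rw [pow_succ]
      omega
  have h2 : (3 * m + 1) * (κ + 1) ^ (3 * m) ≤ (4 * (κ + 1) ^ 3 + 3 * 2 ^ t) ^ m := by
    calc (3 * m + 1) * (κ + 1) ^ (3 * m) ≤ 4 ^ m * (κ + 1) ^ (3 * m) :=
          Nat.mul_le_mul_right _ h1
      _ = (4 * (κ + 1) ^ 3) ^ m := by rw [mul_pow, ← pow_mul]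
      _ ≤ _ := Nat.pow_le_pow_left (Nat.le_add_right _ _) m
  have h3 : (n + 2 ^ t * (3 * m)).choose (2 ^ t * (3 * m)) ≤
      (n + (4 * (κ + 1) ^ 3 + 3 * 2 ^ t) * m).choose ((4 * (κ + 1) ^ 3 + 3 * 2 ^ t) * m) := by
    rw [← Nat.choose_symm_add, ← Nat.choose_symm_add]
    apply Nat.choose_le_choose
    have : 2 ^ t * (3 * m) ≤ (4 * (κ + 1) ^ 3 + 3 * 2 ^ t) * m := by
      calc 2 ^ t * (3 * m) = (3 * 2 ^ t) * m := by ring
        _ ≤ _ := Nat.mul_le_mul_right _ (Nat.le_add_left _ _)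
    omega
  calc (3 * m + 1) * ((κ + 1) ^ (3 * m) * (n + 2 ^ t * (3 * m)).choose (2 ^ t * (3 * m)))
      = ((3 * m + 1) * (κ + 1) ^ (3 * m)) *
        (n + 2 ^ t * (3 * m)).choose (2 ^ t * (3 * m)) := by ring
    _ ≤ _ := Nat.mul_le_mul h2 h3

end SMALLX_

theorem p_SMALLX (h1 : T_RED) (h2 : T_UNL) (h3 : T_WINV) (h4 : T_WCNT)
    (h5 : Pool.Agent.Pend.T_MADER) (h6 : Pool.Agent.Pend.T_MTRANS) : T_SMALLX := by
  classical
  intro t
  obtain ⟨κ, hκ⟩ := h2 t
  choose T hT using hκ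
  refine ⟨4 * (κ + 1) ^ 3 + 3 * 2 ^ t, by positivity, fun n e => ?_⟩
  have hfin : ∀ (N : ℕ) (H : SimpleGraph (Fin N)), (SMALLX_.SS n N H).Finite :=
    fun N H => (h4 N n (SMALLX_.ES H).card H le_rfl).1
  obtain ⟨M, hM⟩ : ∃ M, M = 3 * (e + 1) := ⟨_, rfl⟩
  obtain ⟨T', hT'⟩ : ∃ T' : ∀ N, Finset (SimpleGraph (Fin N)),
      ∀ N, T' N = (T N).filter fun H => ¬ Minor (⊤ : SimpleGraph (Fin t)) H :=
    ⟨fun N => (T N).filter fun H => ¬ Minor (⊤ : SimpleGraph (Fin t)) H, fun _ => rfl⟩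
  obtain ⟨U, hU⟩ : ∃ U : Finset (Set ℕ), U = (range (M + 1)).biUnion fun N =>
      (T' N).biUnion fun H => (hfin N H).toFinset := ⟨_, rfl⟩
  have hsub : {A : Set ℕ | ∃ (G : SimpleGraph (Fin n)) (L : ℕ) (W : ℕ → Fin n),
      ¬ Minor (⊤ : SimpleGraph (Fin t)) G ∧ CycSeq G L W ∧ (offE G L W).card ≤ e ∧ n - L ≤ e ∧
      A = cycleSet G} ⊆ (U : Set (Set ℕ)) := by
    rintro A ⟨G, L, W, hG, hcyc, hoff, hL, rfl⟩
    obtain ⟨H, w, Y, hY, hin, hmin, hw, hpos, htot⟩ := h1 n e G L W hcyc hoff hL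
    -- enumeration of Y
    obtain ⟨ι, hι⟩ : ∃ ι : Fin Y.card → Fin n, ι = fun i => ((Y.equivFin.symm i : Y) : Fin n) :=
      ⟨_, rfl⟩
    have hιinj : Function.Injective ι := by
      intro i j hij
      rw [hι] at hij
      exact Y.equivFin.symm.injective (Subtype.ext hij)
    have hιmem : ∀ i, ι i ∈ Y := by
      intro i
      rw [hι]
      exact (Y.equivFin.symm i).2
    have hιsur : ∀ u ∈ Y, ∃ i, ι i = u := by
      intro u hu
      refine ⟨Y.equivFin ⟨u, hu⟩, ?_⟩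
      rw [hι]
      simp
    obtain ⟨H1, hH1⟩ : ∃ H1 : SimpleGraph (Fin Y.card), ∀ a b, H1.Adj a b ↔ H.Adj (ι a) (ι b) :=
      ⟨H.comap ι, fun _ _ => Iff.rfl⟩
    have hm1 : Minor H1 (H.induce (Y : Set (Fin n))) := by
      refine Pool.Agent.Pend.p_MSUB _ _ _ _ (fun i => ⟨ι i, hιmem i⟩) ?_ ?_
      · intro i j hij
        exact hιinj (congrArg Subtype.val hij)
      · intro a b hab
        exact (hH1 a b).1 hab
    have hm2 : Minor H1 G := h6 _ _ _ _ _ _ hm1 hmin
    have hH1t : ¬ Minor (⊤ : SimpleGraph (Fin t)) H1 := fun h => hG (h6 _ _ _ _ _ _ h hm2)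
    obtain ⟨H', hH'T, ⟨φ⟩⟩ := (hT Y.card).2 H1 hH1t
    have hm3 : Minor H' H1 :=
      Pool.Agent.Pend.p_MSUB _ _ _ _ φ φ.injective fun a b hab => φ.map_adj_iff.2 hab
    have hH't : ¬ Minor (⊤ : SimpleGraph (Fin t)) H' := fun h => hH1t (h6 _ _ _ _ _ _ h hm3)
    -- the composed enumeration
    obtain ⟨ψ, hψ⟩ : ∃ ψ : Fin Y.card → Fin n, ψ = fun i => ι (φ i) := ⟨_, rfl⟩
    have hψinj : Function.Injective ψ := by
      rw [hψ]
      exact hιinj.comp φ.injective
    have hψadj : ∀ a b, H'.Adj a b ↔ H.Adj (ψ a) (ψ b) := by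
      intro a b
      rw [hψ, ← hH1]
      exact φ.map_adj_iff.symm
    have hψsur : ∀ u ∈ Y, ∃ i, ψ i = u := by
      intro u hu
      obtain ⟨i, hi⟩ := hιsur u hu
      refine ⟨φ.symm i, ?_⟩
      rw [hψ]
      change ι (φ (φ.symm i)) = u
      rw [φ.apply_symm_apply, hi]
    have hwc := h3 n Y.card H H' ψ w hψinj hψadj fun u v huv => hψsur u (hin u v huv)
    -- the edges
    have himg : SMALLX_.ES H = (SMALLX_.ES H').image (Sym2.map ψ) := by
      ext a
      rw [SMALLX_.mem_ES, Finset.mem_image]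
      constructor
      · intro ha
        induction a using Sym2.ind with
        | _ x y =>
          rw [SimpleGraph.mem_edgeSet] at ha
          obtain ⟨i, hi⟩ := hψsur x (hin x y ha)
          obtain ⟨j, hj⟩ := hψsur y (hin y x ha.symm)
          refine ⟨s(i, j), ?_, ?_⟩
          · rw [SMALLX_.mem_ES, SimpleGraph.mem_edgeSet, hψadj, hi, hj]
            exact ha
          · rw [Sym2.map_mk, hi, hj]
      · rintro ⟨b, hb, rfl⟩
        rw [SMALLX_.mem_ES] at hb
        induction b using Sym2.ind with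
        | _ x y =>
          rw [SimpleGraph.mem_edgeSet] at hb
          rw [Sym2.map_mk, SimpleGraph.mem_edgeSet]
          exact (hψadj x y).1 hb
    have hinj : Function.Injective (Sym2.map ψ) := Sym2.map.injective hψinj
    have hmem : cycleSet G ∈ SMALLX_.SS n Y.card H' := by
      refine ⟨fun a => w (a.map ψ), ?_, ?_, ?_⟩
      · intro a ha
        apply hpos
        have : Sym2.map ψ a ∈ SMALLX_.ES H := by
          rw [himg]
          exact Finset.mem_image_of_mem _ (SMALLX_.mem_ES.2 ha)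
        exact SMALLX_.mem_ES.1 this
      · have e1 : ∑ a ∈ SMALLX_.ES H, w a = ∑ a ∈ SMALLX_.ES H', w (a.map ψ) := by
          rw [himg, Finset.sum_image fun a _ b _ hab => hinj hab]
        have e2 : (SMALLX_.ES H).card = (SMALLX_.ES H').card := by
          rw [himg, Finset.card_image_of_injective _ hinj]
        rw [← e1, ← e2]
        exact htot
      · rw [hwc, hw]
    rw [hU, Finset.mem_coe, Finset.mem_biUnion]
    refine ⟨Y.card, ?_, ?_⟩
    · rw [Finset.mem_range]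
      omega
    · rw [Finset.mem_biUnion]
      refine ⟨H', ?_, ?_⟩
      · rw [hT', Finset.mem_filter]
        exact ⟨hH'T, hH't⟩
      · rw [Set.Finite.mem_toFinset]
        exact hmem
  have hcard : U.card ≤ (M + 1) * ((κ + 1) ^ M * (n + 2 ^ t * M).choose (2 ^ t * M)) := by
    rw [hU]
    refine le_trans Finset.card_biUnion_le ?_
    have hN : ∀ N ∈ range (M + 1), ((T' N).biUnion fun H => (hfin N H).toFinset).card ≤
        (κ + 1) ^ M * (n + 2 ^ t * M).choose (2 ^ t * M) := by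
      intro N hN
      rw [Finset.mem_range] at hN
      refine le_trans Finset.card_biUnion_le ?_
      have hH : ∀ H ∈ T' N, (hfin N H).toFinset.card ≤
          (n + 2 ^ t * M).choose (2 ^ t * M) := by
        intro H hH
        rw [hT', Finset.mem_filter] at hH
        rw [← Set.ncard_eq_toFinset_card _ (hfin N H)]
        apply (h4 N n (2 ^ t * M) H ?_).2
        calc (SMALLX_.ES H).card ≤ Pool.Agent.Pend.eo H := SMALLX_.ES_card_le H
          _ ≤ 2 ^ t * Fintype.card (Fin N) := h5 t _ H hH.2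
          _ = 2 ^ t * N := by rw [Fintype.card_fin]
          _ ≤ 2 ^ t * M := Nat.mul_le_mul_left _ (by omega)
      refine le_trans (Finset.sum_le_card_nsmul _ _ _ hH) ?_
      rw [smul_eq_mul]
      apply Nat.mul_le_mul_right
      calc (T' N).card ≤ (T N).card := by
            rw [hT']
            exact Finset.card_filter_le _ _
        _ ≤ κ ^ N := (hT N).1
        _ ≤ (κ + 1) ^ N := Nat.pow_le_pow_left (Nat.le_succ _) _
        _ ≤ (κ + 1) ^ M := Nat.pow_le_pow_right (Nat.succ_pos _) (by omega)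
    refine le_trans (Finset.sum_le_card_nsmul _ _ _ hN) ?_
    rw [Finset.card_range, smul_eq_mul]
  have hfinal := Set.ncard_le_ncard hsub (Finset.finite_toSet U)
  rw [Set.ncard_coe_finset] at hfinal
  refine hfinal.trans (hcard.trans ?_)
  rw [hM]
  exact SMALLX_.numbers t κ (e + 1) (by omega) n

end Pool.Agent.CycPl
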