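import Pool.Agent.CycPl.Targets
import Pool.Agent.Pend.Targets2

/-!
Graphs without a complete minor are sparse.
-/

set_option autoImplicit false

namespace Pool.Agent.CycPl

open Finset
open Pool.Agent.HubG (cycleSet CycSeq)
open Pool.Agent.CycSp (Pt Cyc offE ZD SparseP)
open Pool.Agent.Pend (Minor)

open Classical in
theorem p_SPM (h1 : Pool.Agent.Pend.T_MADER) (h2 : Pool.Agent.Pend.T_MSUB)
    (h3 : Pool.Agent.Pend.T_MTRANS) : T_SPM := by
  intro t n G hG
  unfold SparseP
  intro S
  let G' : SimpleGraph {x : Fin n // x ∈ S} := G.comap Subtype.val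
  have hm : Minor G' G := h2 _ _ G' G Subtype.val Subtype.val_injective fun a b h => h
  have hn : ¬ Minor (⊤ : SimpleGraph (Fin t)) G' := fun h => hG (h3 _ _ _ _ _ _ h hm)
  have h4 := h1 t _ G' hn
  rw [Fintype.card_coe] at h4
  have h5 : ((S ×ˢ S).filter (fun p => G.Adj p.1 p.2)).card ≤ Pool.Agent.Pend.eo G' := by
    unfold Pool.Agent.Pend.eo
    refine (card_le_card (t := ((univ : Finset ({x : Fin n // x ∈ S} ×
      {x : Fin n // x ∈ S})).filter (fun p => G'.Adj p.1 p.2)).image
      (fun p => ((p.1 : Fin n), (p.2 : Fin n)))) ?_).trans card_image_le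
    intro p hp
    rw [mem_filter, mem_product] at hp
    rw [mem_image]
    exact ⟨(⟨p.1, hp.1.1⟩, ⟨p.2, hp.1.2⟩), by
      rw [mem_filter]
      exact ⟨mem_univ _, hp.2⟩, rfl⟩
  refine h5.trans (h4.trans ?_)
  rw [mul_assoc]
  exact Nat.le_mul_of_pos_left _ (by norm_num)

end Pool.Agent.CycPl
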