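import Pool.Agent.CycPl.Targets

/-!
# STEP: one step of the reduction

A vertex of the cycle of degree two whose predecessor has degree two is suppressed.
-/

set_option autoImplicit false

namespace Pool.Agent.CycPl

open Finset
open Pool.Agent.HubG (cycleSet CycSeq)
open Pool.Agent.Pend (Minor)

namespace STEP_

theorem nxt_iff {n : ℕ} {L : ℕ} {W : ℕ → Fin n} (hL : W L = W 0) {i : ℕ} (hi : i < L)
    (u : Fin n) : Nxt L W i u ↔ u = W ((i + 1) % L) ∨ u = W ((i + (L - 1)) % L) := by
  have h1 : W ((i + 1) % L) = W (i + 1) := by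
    rcases Nat.lt_or_ge (i + 1) L with h | h
    · rw [Nat.mod_eq_of_lt h]
    · have h2 : i + 1 = L := by omega
      rw [h2, Nat.mod_self, hL]
  have h2 : (0 < i ∧ u = W (i - 1)) ∨ (i = 0 ∧ u = W (L - 1)) ↔
      u = W ((i + (L - 1)) % L) := by
    rcases Nat.eq_zero_or_pos i with h | h
    · subst h
      rw [Nat.zero_add, Nat.mod_eq_of_lt (by omega)]
      simp
    · have h3 : (i + (L - 1)) % L = i - 1 := by
        rw [show i + (L - 1) = (i - 1) + L by omega, Nat.add_mod_right,
          Nat.mod_eq_of_lt (by omega)]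
      rw [h3]
      constructor
      · rintro (h4 | h4)
        · exact h4.2
        · omega
      · intro h4
        exact Or.inl ⟨h, h4⟩
  unfold Nxt
  rw [h1, h2]

/-- two consecutive vertices outside `X` -/
theorem exists_pair {n : ℕ} (X : Finset (Fin n)) (L : ℕ) (W : ℕ → Fin n) (h0 : 0 < L)
    (hinj : ∀ s t, s < L → t < L → W s = W t → s = t) (hX : 2 * X.card < L) :
    ∃ i < L, W i ∉ X ∧ W ((i + 1) % L) ∉ X := by
  classical
  by_contra hcon
  push Not at hcon
  have hA : ((range L).filter (fun i => W i ∈ X)).card ≤ X.card := by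
    refine card_le_card_of_injOn W ?_ ?_
    · intro i hi
      rw [mem_coe, mem_filter] at hi
      exact hi.2
    · intro s hs t ht hst
      rw [mem_coe, mem_filter, mem_range] at hs ht
      exact hinj s t hs.1 ht.1 hst
  have hB : ((range L).filter (fun i => ¬ W i ∈ X)).card ≤
      ((range L).filter (fun i => W i ∈ X)).card := by
    refine card_le_card_of_injOn (fun i => (i + 1) % L) ?_ ?_
    · intro i hi
      rw [mem_coe, mem_filter, mem_range] at hi
      rw [mem_coe, mem_filter, mem_range]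
      exact ⟨Nat.mod_lt _ h0, hcon i hi.1 hi.2⟩
    · intro s hs t ht hst
      rw [mem_coe, mem_filter, mem_range] at hs ht
      have h1 : s + 1 ≡ t + 1 [MOD L] := hst
      have h2 : s ≡ t [MOD L] := Nat.ModEq.add_right_cancel' 1 h1
      rw [Nat.ModEq, Nat.mod_eq_of_lt hs.1, Nat.mod_eq_of_lt ht.1] at h2
      exact h2
  have hC := card_filter_add_card_filter_not (s := range L) (fun i => W i ∈ X)
  rw [card_range] at hC
  omega

theorem mem_edge_sup {n : ℕ} (G : SimpleGraph (Fin n)) (a b z : Fin n) (hab : a ≠ b)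
    (haz : G.Adj a z) (hzb : G.Adj z b) (hz : ∀ u, G.Adj z u → u = a ∨ u = b)
    (e : Sym2 (Fin n)) : e ∈ (supG G a b z).edgeSet ↔
      e = s(a, b) ∨ (e ≠ s(z, b) ∧ e ≠ s(a, z) ∧ e ∈ G.edgeSet) := by
  induction e using Sym2.ind with
  | _ u v =>
    rw [SimpleGraph.mem_edgeSet, SimpleGraph.mem_edgeSet]
    constructor
    · rintro ⟨h1, ⟨h2, h3, h4⟩ | h2⟩
      · refine Or.inr ⟨?_, ?_, h2⟩
        · intro h5
          rw [Sym2.eq_iff] at h5
          rcases h5 with h5 | h5
          · exact h3 h5.1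
          · exact h4 h5.2
        · intro h5
          rw [Sym2.eq_iff] at h5
          rcases h5 with h5 | h5
          · exact h4 h5.2
          · exact h3 h5.1
      · exact Or.inl h2
    · rintro (h1 | ⟨h1, h2, h3⟩)
      · refine ⟨?_, Or.inr h1⟩
        intro h2
        rw [Sym2.eq_iff] at h1
        rcases h1 with h1 | h1
        · exact hab (by rw [← h1.1, ← h1.2, h2])
        · exact hab (by rw [← h1.1, ← h1.2, h2])
      · refine ⟨h3.ne, Or.inl ⟨h3, ?_, ?_⟩⟩
        · intro h4
          subst h4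
          rcases hz v h3 with h5 | h5
          · subst h5
            exact h2 Sym2.eq_swap
          · subst h5
            exact h1 rfl
        · intro h4
          subst h4
          rcases hz u h3.symm with h5 | h5
          · subst h5
            exact h2 rfl
          · subst h5
            exact h1 Sym2.eq_swap

open Classical in
theorem edges_sup {n : ℕ} (G : SimpleGraph (Fin n)) (a b z : Fin n) (hab : a ≠ b)
    (haz : G.Adj a z) (hzb : G.Adj z b) (hz : ∀ u, G.Adj z u → u = a ∨ u = b) :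
    univ.filter (fun e => e ∈ (supG G a b z).edgeSet) =
      insert s(a, b) (((univ.filter (fun e => e ∈ G.edgeSet)).erase s(a, z)).erase s(z, b)) := by
  ext e
  rw [mem_filter, mem_insert, mem_erase, mem_erase, mem_filter, mem_edge_sup G a b z hab haz hzb hz]
  simp

open Classical in
theorem tot_sup {n : ℕ} (G : SimpleGraph (Fin n)) (w : Sym2 (Fin n) → ℕ) (a b z : Fin n)
    (hab : a ≠ b) (haz : G.Adj a z) (hzb : G.Adj z b) (hz : ∀ u, G.Adj z u → u = a ∨ u = b)
    (hnab : ¬ G.Adj a b) :
    ∑ e ∈ univ.filter (fun e => e ∈ (supG G a b z).edgeSet), supW w a b z e =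
      ∑ e ∈ univ.filter (fun e => e ∈ G.edgeSet), w e ∧
    (univ.filter (fun e => e ∈ (supG G a b z).edgeSet)).card + 1 =
      (univ.filter (fun e => e ∈ G.edgeSet)).card := by
  rw [edges_sup G a b z hab haz hzb hz]
  obtain ⟨E, hE⟩ : ∃ E : Finset (Sym2 (Fin n)), E = univ.filter (fun e => e ∈ G.edgeSet) :=
    ⟨_, rfl⟩
  rw [← hE]
  have h1 : s(a, z) ∈ E := by
    rw [hE, mem_filter]
    exact ⟨mem_univ _, haz⟩
  have h2 : s(z, b) ∈ E := by
    rw [hE, mem_filter]
    exact ⟨mem_univ _, hzb⟩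
  have h3 : s(a, b) ∉ E := by
    rw [hE, mem_filter]
    rintro ⟨-, h⟩
    exact hnab h
  have h4 : s(z, b) ≠ s(a, z) := by
    intro h
    rw [Sym2.eq_iff] at h
    rcases h with h | h
    · exact haz.ne h.1.symm
    · exact hab h.2.symm
  have h5 : s(z, b) ∈ E.erase s(a, z) := mem_erase.mpr ⟨h4, h2⟩
  have h6 : s(a, b) ∉ (E.erase s(a, z)).erase s(z, b) := by
    intro h
    exact h3 (mem_of_mem_erase (mem_of_mem_erase h))
  constructor
  · rw [sum_insert h6]
    have h7 : ∑ e ∈ (E.erase s(a, z)).erase s(z, b), supW w a b z e =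
        ∑ e ∈ (E.erase s(a, z)).erase s(z, b), w e := by
      refine sum_congr rfl fun e he => ?_
      unfold supW
      rw [if_neg]
      intro h8
      subst h8
      exact h6 he
    rw [h7]
    have h8 : supW w a b z s(a, b) = w s(a, z) + w s(z, b) := by
      unfold supW
      rw [if_pos rfl]
    rw [h8, add_assoc, add_sum_erase _ _ h5, add_sum_erase _ _ h1]
  · rw [card_insert_of_notMem h6, card_erase_of_mem h5, card_erase_of_mem h1]
    have h7 : 0 < (E.erase s(a, z)).card := card_pos.mpr ⟨_, h5⟩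
    rw [card_erase_of_mem h1] at h7
    omega

open Classical in
theorem step_end (h2 : T_SUP) (h3 : T_SUPM) (h4 : Pool.Agent.Pend.T_MTRANS) {n : ℕ}
    {G0 : SimpleGraph (Fin n)} {X : Finset (Fin n)} {e : ℕ} {G : SimpleGraph (Fin n)}
    {w : Sym2 (Fin n) → ℕ} {L : ℕ} {W : ℕ → Fin n} {Y : Finset (Fin n)}
    (hS : St G0 X e G w L W Y) (hL : 4 ≤ L) (hx1 : W (L - 2) ∉ X) (hx2 : W (L - 1) ∉ X) :
    ∃ (G' : SimpleGraph (Fin n)) (w' : Sym2 (Fin n) → ℕ) (W' : ℕ → Fin n)
      (Y' : Finset (Fin n)), St G0 X e G' w' (L - 1) W' Y' := by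
  have hinj := hS.cyc.inj
  have hWL : W L = W 0 := hS.cyc.ge L le_rfl
  obtain ⟨a, ha⟩ : ∃ a, a = W (L - 2) := ⟨_, rfl⟩
  obtain ⟨z, hz⟩ : ∃ z, z = W (L - 1) := ⟨_, rfl⟩
  obtain ⟨b, hb⟩ : ∃ b, b = W 0 := ⟨_, rfl⟩
  have hab : a ≠ b := by
    rw [ha, hb]
    intro h
    have := hinj _ _ (by omega) (by omega) h
    omega
  have haz : G.Adj a z := by
    have := hS.cyc.adj (L - 2) (by omega)
    rw [show L - 2 + 1 = L - 1 by omega] at this
    rw [ha, hz]
    exact this
  have hzb : G.Adj z b := by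
    rw [hz, hb]
    exact hS.cyc.last
  have hzn : ∀ u, G.Adj z u → u = a ∨ u = b := by
    intro u hu
    rw [hz] at hu
    rcases hS.two (L - 1) (by omega) hx2 u hu with h | h | h
    · right
      rw [h, show L - 1 + 1 = L by omega, hWL, hb]
    · left
      rw [h.2, show L - 1 - 1 = L - 2 by omega, ha]
    · omega
  have hnab : ¬ G.Adj a b := by
    intro h
    rw [ha, hb] at h
    rcases hS.two (L - 2) (by omega) hx1 _ h with h | h | h
    · have := hinj _ _ (by omega) (by omega) h
      omega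
    · have := hinj _ _ (by omega) (by omega) h.2
      omega
    · omega
  have haY : a ∈ Y := hS.inY a z haz
  have hzY : z ∈ Y := hS.inY z b hzb
  have hbY : b ∈ Y := hS.inY b z hzb.symm
  have hW' : ∀ i, i < L - 1 → (fun i => if i < L - 1 then W i else W 0) i = W i := by
    intro i hi
    simp only
    rw [if_pos hi]
  have hW'' : ∀ i, L - 1 ≤ i → (fun i => if i < L - 1 then W i else W 0) i = W 0 := by
    intro i hi
    simp only
    rw [if_neg (by omega)]
  obtain ⟨W', hWd⟩ : ∃ W' : ℕ → Fin n, W' = fun i => if i < L - 1 then W i else W 0 := ⟨_, rfl⟩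
  rw [← hWd] at hW' hW''
  have hne : ∀ i, i < L - 1 → W i ≠ z := by
    intro i hi h
    rw [hz] at h
    have := hinj _ _ (by omega) (by omega) h
    omega
  refine ⟨supG G a b z, supW w a b z, W', Y.erase z, ?_, ?_, ?_, ?_, ?_, ?_, ?_, ?_⟩
  · refine ⟨?_, ?_, ?_, ?_, by omega⟩
    · intro s hs
      rw [hW' s (by omega), hW' (s + 1) hs]
      have h := hS.cyc.adj s (by omega)
      exact ⟨h.ne, Or.inl ⟨h, hne s (by omega), hne (s + 1) hs⟩⟩
    · rw [hW' (L - 1 - 1) (by omega), hW' 0 (by omega), show L - 1 - 1 = L - 2 by omega,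
        ← ha, ← hb]
      exact ⟨hab, Or.inr rfl⟩
    · intro s t hs ht h
      rw [hW' s hs, hW' t ht] at h
      exact hinj s t (by omega) (by omega) h
    · intro s hs
      rw [hW'' s hs, hW' 0 (by omega)]
  · rintro u v ⟨h5, ⟨h6, h7, h8⟩ | h6⟩
    · exact mem_erase.mpr ⟨h7, hS.inY u v h6⟩
    · rw [Sym2.eq_iff] at h6
      rcases h6 with h6 | h6
      · rw [h6.1]
        exact mem_erase.mpr ⟨haz.ne, haY⟩
      · rw [h6.1]
        exact mem_erase.mpr ⟨hzb.ne.symm, hbY⟩
  · intro i hi hiX u hu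
    rw [hW' i hi] at hiX hu
    obtain ⟨h5, ⟨h6, h7, h8⟩ | h6⟩ := hu
    · rcases hS.two i (by omega) hiX u h6 with h | h | h
      · left
        rcases Nat.lt_or_ge (i + 1) (L - 1) with h9 | h9
        · rw [hW' _ h9]
          exact h
        · exfalso
          apply h8
          rw [h, hz, show i + 1 = L - 1 by omega]
      · right
        left
        refine ⟨h.1, ?_⟩
        rw [hW' (i - 1) (by omega)]
        exact h.2
      · exfalso
        apply h8
        rw [h.2, hz]
    · rw [Sym2.eq_iff] at h6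
      rcases h6 with h6 | h6
      · left
        have h7 : i = L - 2 := by
          have h8 := h6.1
          rw [ha] at h8
          exact hinj _ _ (by omega) (by omega) h8
        rw [h7, h6.2, hW'' (L - 2 + 1) (by omega), hb]
      · right
        right
        have h7 : i = 0 := by
          have h8 := h6.1
          rw [hb] at h8
          exact hinj _ _ (by omega) (by omega) h8
        refine ⟨h7, ?_⟩
        rw [h6.2, ha, hW' (L - 1 - 1) (by omega), show L - 1 - 1 = L - 2 by omega]
  · exact h4 _ _ _ _ _ _ (h3 n G Y a b z hab haz hzb haY hbY hzY) hS.minor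
  · rw [h2 n G w a b z hab haz hzb hzn hnab]
    exact hS.eq
  · intro c hc
    rw [mem_edge_sup G a b z hab haz hzb hzn] at hc
    unfold supW
    split_ifs with h
    · have := hS.pos s(a, z) haz
      omega
    · rcases hc with hc | hc
      · exact absurd hc h
      · exact hS.pos c hc.2.2
  · obtain ⟨h5, h6⟩ := tot_sup G w a b z hab haz hzb hzn hnab
    have h7 := hS.tot
    have h8 := card_erase_of_mem hzY
    have h9 : 0 < Y.card := card_pos.mpr ⟨z, hzY⟩
    rw [h8]
    have h10 : ∑ e ∈ univ.filter (fun e => e ∈ (supG G a b z).edgeSet), supW w a b z e +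
        (Y.card - 1) ≤ n + (univ.filter (fun e => e ∈ (supG G a b z).edgeSet)).card := by
      rw [h5]
      omega
    exact h10
  · have h8 := card_erase_of_mem hzY
    have h9 : 0 < Y.card := card_pos.mpr ⟨z, hzY⟩
    have h10 := hS.card
    omega

end STEP_

open STEP_ in
theorem p_STEP (h1 : T_ROT) (h2 : T_SUP) (h3 : T_SUPM) (h4 : Pool.Agent.Pend.T_MTRANS) :
    T_STEP := by
  intro n G0 X e G w L W Y hS hL hX
  have hL0 : 0 < L := by omega
  obtain ⟨i, hi, hi1, hi2⟩ := exists_pair X L W hL0 hS.cyc.inj hX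
  obtain ⟨k, hk⟩ : ∃ k, k = (i + 2) % L := ⟨_, rfl⟩
  have hkL : k < L := by
    rw [hk]
    exact Nat.mod_lt _ hL0
  obtain ⟨W', hc, hW', -⟩ := h1 n G L W k hS.cyc hkL
  have hWlt : ∀ j, j < L → W' j = W ((j + k) % L) := by
    intro j hj
    rw [hW', if_pos hj]
  have hS' : St G0 X e G w L W' Y := by
    refine ⟨hc, hS.inY, ?_, hS.minor, hS.eq, hS.pos, hS.tot, hS.card⟩
    intro j hj hjX u hu
    rw [hWlt j hj] at hjX hu
    have h5 := hS.two ((j + k) % L) (Nat.mod_lt _ hL0) hjX u hu
    rw [nxt_iff (hS.cyc.ge L le_rfl) (Nat.mod_lt _ hL0)] at h5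
    rw [nxt_iff (hc.ge L le_rfl) hj, hWlt _ (Nat.mod_lt _ hL0), hWlt _ (Nat.mod_lt _ hL0)]
    have h6 : ∀ c, ((j + c) % L + k) % L = ((j + k) % L + c) % L := by
      intro c
      rw [Nat.mod_add_mod, Nat.mod_add_mod]
      congr 1
      ring
    rw [h6, h6]
    exact h5
  have h7 : W' (L - 2) = W i := by
    rw [hWlt _ (by omega), hk, Nat.add_mod_mod, show L - 2 + (i + 2) = i + L by omega,
      Nat.add_mod_right, Nat.mod_eq_of_lt hi]
  have h8 : W' (L - 1) = W ((i + 1) % L) := by
    rw [hWlt _ (by omega), hk, Nat.add_mod_mod, show L - 1 + (i + 2) = i + 1 + L by omega,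
      Nat.add_mod_right]
  exact step_end h2 h3 h4 hS' hL (by rw [h7]; exact hi1) (by rw [h8]; exact hi2)

end Pool.Agent.CycPl
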