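import Pool.Agent.CycPl.Targets

/-!
# SUP: suppression of a vertex of degree two
-/

set_option autoImplicit false

namespace Pool.Agent.CycPl

open Finset
open Pool.Agent.HubG (cycleSet CycSeq)

theorem supG_adj {n : ℕ} {G : SimpleGraph (Fin n)} {a b z u v : Fin n} :
    (supG G a b z).Adj u v ↔ u ≠ v ∧ ((G.Adj u v ∧ u ≠ z ∧ v ≠ z) ∨ s(u, v) = s(a, b)) :=
  Iff.rfl

/-- the rotation which makes the place `j` the last place -/
theorem rotLast (h1 : T_ROT) {n : ℕ} {G : SimpleGraph (Fin n)} {L : ℕ} {W : ℕ → Fin n} {j : ℕ}
    (hW : CycSeq G L W) (hj : j < L) : ∃ W' : ℕ → Fin n, CycSeq G L W' ∧ W' (L - 1) = W j ∧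
      W' 0 = W (j + 1) ∧
      ∀ w : Sym2 (Fin n) → ℕ,
        ∑ i ∈ range L, w s(W' i, W' (i + 1)) = ∑ i ∈ range L, w s(W i, W (i + 1)) := by
  have h3 := hW.three
  have hk : (j + 1) % L < L := Nat.mod_lt _ (by omega)
  obtain ⟨W', hc, hv, hs⟩ := h1 n G L W ((j + 1) % L) hW hk
  refine ⟨W', hc, ?_, ?_, hs⟩
  · rw [hv, if_pos (by omega)]
    congr 1
    rw [Nat.add_mod_mod, show L - 1 + (j + 1) = j + L by omega, Nat.add_mod_right,
      Nat.mod_eq_of_lt hj]
  · rw [hv, if_pos (by omega), Nat.zero_add, Nat.mod_mod]
    by_cases h : j + 1 < L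
    · rw [Nat.mod_eq_of_lt h]
    · rw [show j + 1 = L by omega, Nat.mod_self]
      exact (hW.ge L (le_refl _)).symm

theorem p_SUP (h1 : T_ROT) : T_SUP := by
  classical
  intro n G w a b z hab haz hzb hdeg hnab
  have hza : z ≠ a := haz.ne'
  have hzb' : z ≠ b := hzb.ne
  have hne : ∀ u v, G.Adj u v → s(u, v) ≠ s(a, b) := by
    intro u v huv h
    rw [Sym2.eq_iff] at h
    rcases h with ⟨rfl, rfl⟩ | ⟨rfl, rfl⟩
    · exact hnab huv
    · exact hnab huv.symm
  -- the weight of the path through `z`
  have hpath : ∀ u v, s(u, v) = s(a, b) → w s(u, z) + w s(z, v) = w s(a, z) + w s(z, b) := by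
    intro u v h
    rw [Sym2.eq_iff] at h
    rcases h with ⟨rfl, rfl⟩ | ⟨rfl, rfl⟩
    · rfl
    · rw [Sym2.eq_swap (a := u) (b := z), Sym2.eq_swap (a := z) (b := v), add_comm]
  have hsup : ∀ u v, s(u, v) = s(a, b) → supW w a b z s(u, v) = w s(u, z) + w s(z, v) := by
    intro u v h
    rw [supW, if_pos h, hpath u v h]
  have hsup' : ∀ e, e ≠ s(a, b) → supW w a b z e = w e := by
    intro e h
    rw [supW, if_neg h]
  apply Set.Subset.antisymm
  · -- a cycle of the new graph
    rintro l ⟨L, W, hW, rfl⟩
    have h3 := hW.three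
    have hnz : ∀ u, ¬ (supG G a b z).Adj z u := by
      intro u h
      rw [supG_adj] at h
      rcases h with ⟨_, ⟨_, h2, _⟩ | h2⟩
      · exact h2 rfl
      · rw [Sym2.eq_iff] at h2
        rcases h2 with ⟨h2, _⟩ | ⟨h2, _⟩
        · exact hza h2
        · exact hzb' h2
    by_cases hex : ∃ j < L, s(W j, W (j + 1)) = s(a, b)
    · obtain ⟨j, hj, hjs⟩ := hex
      obtain ⟨W', hc, hl, h0, hs⟩ := rotLast h1 hW hj
      rw [← hs]
      have hab' : s(W' (L - 1), W' 0) = s(a, b) := by rw [hl, h0, hjs]
      have hz : ∀ i, i < L → W' i ≠ z := by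
        intro i hi h
        by_cases h' : i + 1 < L
        · have := hc.adj i h'
          rw [h] at this
          exact hnz _ this
        · have h'' := hc.last
          rw [show L - 1 = i by omega, h] at h''
          exact hnz _ h''
      have hnot : ∀ i, i + 1 < L → s(W' i, W' (i + 1)) ≠ s(a, b) := by
        intro i hi h
        rw [← hab', Sym2.eq_iff] at h
        rcases h with ⟨h4, _⟩ | ⟨h4, h5⟩
        · have := hc.inj i (L - 1) (by omega) (by omega) h4
          omega
        · have h6 := hc.inj i 0 (by omega) (by omega) h4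
          have h7 := hc.inj (i + 1) (L - 1) (by omega) (by omega) h5
          omega
      have hadj : ∀ i, i + 1 < L → G.Adj (W' i) (W' (i + 1)) := by
        intro i hi
        have h4 := hc.adj i hi
        rw [supG_adj] at h4
        rcases h4.2 with h5 | h5
        · exact h5.1
        · exact absurd h5 (hnot i hi)
      have hlz : G.Adj (W' (L - 1)) z ∧ G.Adj z (W' 0) := by
        rw [Sym2.eq_iff] at hab'
        rcases hab' with ⟨h4, h5⟩ | ⟨h4, h5⟩
        · rw [h4, h5]
          exact ⟨haz, hzb⟩
        · rw [h4, h5]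
          exact ⟨hzb.symm, haz.symm⟩
      let W2 : ℕ → Fin n := fun i => if i < L then W' i else if i = L then z else W' 0
      have hW2 : ∀ i, i < L → W2 i = W' i := fun i hi => if_pos hi
      have hW2L : W2 L = z := by
        change (if L < L then W' L else if L = L then z else W' 0) = z
        rw [if_neg (by omega), if_pos rfl]
      have hW2g : ∀ i, L < i → W2 i = W' 0 := by
        intro i hi
        simp only [W2]
        rw [if_neg (by omega), if_neg (by omega)]
      refine ⟨L + 1, W2, ⟨?_, ?_, ?_, ?_, by omega⟩, ?_⟩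
      · intro s hs'
        rw [hW2 s (by omega)]
        by_cases h4 : s + 1 < L
        · rw [hW2 _ h4]
          exact hadj s h4
        · have h5 : s + 1 = L := by omega
          rw [h5, hW2L, show s = L - 1 by omega]
          exact hlz.1
      · rw [show L + 1 - 1 = L by omega, hW2L, hW2 0 (by omega)]
        exact hlz.2
      · intro s t hs' ht hst
        by_cases h4 : s < L
        · by_cases h5 : t < L
          · rw [hW2 s h4, hW2 t h5] at hst
            exact hc.inj s t h4 h5 hst
          · rw [hW2 s h4, show t = L by omega, hW2L] at hst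
            exact absurd hst (hz s h4)
        · by_cases h5 : t < L
          · rw [hW2 t h5, show s = L by omega, hW2L] at hst
            exact absurd hst.symm (hz t h5)
          · omega
      · intro s hs'
        rw [hW2g s (by omega), hW2 0 (by omega)]
      · obtain ⟨M, rfl⟩ : ∃ M, L = M + 1 := ⟨L - 1, by omega⟩
        rw [sum_range_succ, sum_range_succ (n := M + 1), sum_range_succ (n := M),
          hW2L, hW2g (M + 1 + 1) (by omega), hW2 M (by omega), hc.ge (M + 1) (le_refl _)]
        rw [show M + 1 - 1 = M by omega] at hab'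
        rw [hsup _ _ hab', add_assoc]
        congr 1
        apply sum_congr rfl
        intro i hi
        rw [mem_range] at hi
        rw [hW2 i (by omega), hW2 (i + 1) (by omega), hsup' _ (hnot i (by omega))]
    · push Not at hex
      have hadj : ∀ i, i < L → (supG G a b z).Adj (W i) (W (i + 1)) → G.Adj (W i) (W (i + 1)) := by
        intro i hi h4
        rw [supG_adj] at h4
        rcases h4.2 with h5 | h5
        · exact h5.1
        · exact absurd h5 (hex i hi)
      refine ⟨L, W, ⟨?_, ?_, hW.inj, hW.ge, h3⟩, ?_⟩
      · intro s hs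
        exact hadj s (by omega) (hW.adj s hs)
      · have h4 := hadj (L - 1) (by omega)
        rw [show L - 1 + 1 = L by omega, hW.ge L (le_refl _)] at h4
        exact h4 hW.last
      · apply sum_congr rfl
        intro i hi
        rw [mem_range] at hi
        exact hsup' _ (hex i hi)
  · -- a cycle of the old graph
    rintro l ⟨L, W, hW, rfl⟩
    have h3 := hW.three
    by_cases hex : ∃ j < L, W j = z
    · obtain ⟨j, hj, hjs⟩ := hex
      obtain ⟨W', hc, hl, -, hs⟩ := rotLast h1 hW hj
      rw [← hs]
      rw [hjs] at hl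
      have hz : ∀ i, i < L - 1 → W' i ≠ z := by
        intro i hi h
        rw [← hl] at h
        have := hc.inj i (L - 1) (by omega) (by omega) h
        omega
      have hadj1 : G.Adj (W' (L - 2)) z := by
        have h4 := hc.adj (L - 2) (by omega)
        rw [show L - 2 + 1 = L - 1 by omega, hl] at h4
        exact h4
      have hadj2 : G.Adj z (W' 0) := by
        have h4 := hc.last
        rw [hl] at h4
        exact h4
      have hne' : W' (L - 2) ≠ W' 0 := by
        intro h
        have := hc.inj (L - 2) 0 (by omega) (by omega) h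
        omega
      have hab' : s(W' (L - 2), W' 0) = s(a, b) := by
        rw [Sym2.eq_iff]
        rcases hdeg _ hadj1.symm with h4 | h4 <;> rcases hdeg _ hadj2 with h5 | h5
        · exact absurd (h4.trans h5.symm) hne'
        · exact Or.inl ⟨h4, h5⟩
        · exact Or.inr ⟨h4, h5⟩
        · exact absurd (h4.trans h5.symm) hne'
      have hL4 : 4 ≤ L := by
        by_contra hcon
        have h4 : L = 3 := by omega
        subst h4
        have h5 := hc.adj 0 (by omega)
        exact hne _ _ h5.symm hab'
      let W2 : ℕ → Fin n := fun i => if i < L - 1 then W' i else W' 0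
      have hW2 : ∀ i, i < L - 1 → W2 i = W' i := fun i hi => if_pos hi
      have hW2g : ∀ i, L - 1 ≤ i → W2 i = W' 0 := by
        intro i hi
        simp only [W2]
        rw [if_neg (by omega)]
      refine ⟨L - 1, W2, ⟨?_, ?_, ?_, ?_, by omega⟩, ?_⟩
      · intro s hs'
        rw [hW2 s (by omega), hW2 (s + 1) (by omega), supG_adj]
        have h4 := hc.adj s (by omega)
        exact ⟨h4.ne, Or.inl ⟨h4, hz s (by omega), hz (s + 1) (by omega)⟩⟩
      · rw [show L - 1 - 1 = L - 2 by omega, hW2 (L - 2) (by omega), hW2 0 (by omega), supG_adj]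
        exact ⟨hne', Or.inr hab'⟩
      · intro s t hs' ht hst
        rw [hW2 s (by omega), hW2 t (by omega)] at hst
        exact hc.inj s t (by omega) (by omega) hst
      · intro s hs'
        rw [hW2g s hs', hW2 0 (by omega)]
      · obtain ⟨M, rfl⟩ : ∃ M, L = M + 2 := ⟨L - 2, by omega⟩
        rw [show M + 2 - 1 = M + 1 by omega] at hW2 hW2g hl ⊢
        rw [show M + 2 - 2 = M by omega] at hab'
        rw [sum_range_succ, sum_range_succ (n := M), sum_range_succ (n := M),
          hW2 M (by omega), hW2g (M + 1) (by omega), hsup _ _ hab', hl,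
          hc.ge (M + 1 + 1) (by omega), add_assoc]
        congr 1
        apply sum_congr rfl
        intro i hi
        rw [mem_range] at hi
        rw [hW2 i (by omega), hW2 (i + 1) (by omega),
          hsup' _ (hne _ _ (hc.adj i (by omega)))]
    · push Not at hex
      have hz : ∀ i, W i ≠ z := by
        intro i
        by_cases hi : i < L
        · exact hex i hi
        · rw [hW.ge i (by omega)]
          exact hex 0 (by omega)
      refine ⟨L, W, ⟨?_, ?_, hW.inj, hW.ge, h3⟩, ?_⟩
      · intro s hs
        rw [supG_adj]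
        have h4 := hW.adj s hs
        exact ⟨h4.ne, Or.inl ⟨h4, hz _, hz _⟩⟩
      · rw [supG_adj]
        have h4 := hW.last
        exact ⟨h4.ne, Or.inl ⟨h4, hz _, hz _⟩⟩
      · apply sum_congr rfl
        intro i hi
        rw [mem_range] at hi
        refine (hsup' _ (hne _ _ ?_)).symm
        by_cases h4 : i + 1 < L
        · exact hW.adj i h4
        · have h5 := hW.last
          rw [show L - 1 = i by omega] at h5
          rw [hW.ge (i + 1) (by omega)]
          exact h5

end Pool.Agent.CycPl
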