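import Pool.Agent.CycPl.Targets

/-!
# Suppression of a vertex of degree two gives a minor
-/

set_option autoImplicit false

namespace Pool.Agent.CycPl

open Finset
open Pool.Agent.HubG (cycleSet CycSeq)
open Pool.Agent.CycSp (Pt Cyc offE ZD SparseP)
open Pool.Agent.Pend (Minor)

theorem p_SUPM : T_SUPM := by
  intro n G Y a b z hab haz hzb haY hbY hzY
  refine ⟨fun u => {x | x.1 = u.1 ∨ (x.1 = z ∧ u.1 = a)}, ?_, ?_, ?_⟩
  · rintro ⟨u, hu⟩
    have huY : u ∈ Y := Finset.mem_of_mem_erase (Finset.mem_coe.1 hu)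
    rw [SimpleGraph.connected_iff_exists_forall_reachable]
    refine ⟨⟨⟨u, huY⟩, Or.inl rfl⟩, ?_⟩
    rintro ⟨⟨x, hx⟩, h⟩
    rcases h with h | ⟨h1, h2⟩
    · have h' : x = u := h
      subst h'
      exact SimpleGraph.Reachable.refl _
    · have h1' : x = z := h1
      have h2' : u = a := h2
      refine SimpleGraph.Adj.reachable ?_
      show G.Adj u x
      rw [h1', h2']
      exact haz
  · rintro ⟨u, hu⟩ ⟨v, hv⟩ huv
    have huz : u ≠ z := Finset.ne_of_mem_erase (Finset.mem_coe.1 hu)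
    have hvz : v ≠ z := Finset.ne_of_mem_erase (Finset.mem_coe.1 hv)
    have huv' : u ≠ v := fun h => huv (Subtype.ext h)
    rw [Set.disjoint_left]
    rintro ⟨x, hx⟩ h h'
    simp only [Set.mem_ofPred_eq] at h h'
    rcases h with h | ⟨h1, h2⟩ <;> rcases h' with h' | ⟨h1', h2'⟩
    · exact huv' (h.symm.trans h')
    · exact huz (h.symm.trans h1')
    · exact hvz (h'.symm.trans h1)
    · exact huv' (h2.trans h2'.symm)
  · rintro ⟨u, hu⟩ ⟨v, hv⟩ huv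
    have huY : u ∈ Y := Finset.mem_of_mem_erase (Finset.mem_coe.1 hu)
    have hvY : v ∈ Y := Finset.mem_of_mem_erase (Finset.mem_coe.1 hv)
    have huv' : (supG G a b z).Adj u v := huv
    obtain ⟨-, h⟩ := huv'
    rcases h with ⟨h, -, -⟩ | h
    · exact ⟨⟨u, huY⟩, Or.inl rfl, ⟨v, hvY⟩, Or.inl rfl, h⟩
    · rw [Sym2.eq_iff] at h
      rcases h with ⟨h1, h2⟩ | ⟨h1, h2⟩
      · exact ⟨⟨z, hzY⟩, Or.inr ⟨rfl, h1⟩, ⟨b, hbY⟩, Or.inl h2.symm, hzb⟩
      · exact ⟨⟨b, hbY⟩, Or.inl h1.symm, ⟨z, hzY⟩, Or.inr ⟨rfl, h2⟩, hzb.symm⟩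

end Pool.Agent.CycPl
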