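import Pool.Agent.CycPl.Defs

/-!
# Cycle sets of graphs without a Möbius ladder minor: the targets

Each `T_XXX : Prop` is one job; the proof is a theorem `p_XXX : T_XXX` in the file
`Pool/Agent/CycPl/XXX.lean` (the hypotheses of a job may be other targets).
The proofs are in `Blueprint.lean.txt`.
-/

set_option autoImplicit false

namespace Pool.Agent.CycPl

open Finset
open Pool.Agent.HubG (cycleSet CycSeq)
open Pool.Agent.CycSp (Pt Cyc offE ZD SparseP)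
open Pool.Agent.Pend (Minor)

/-! ## Counting -/

/-- COUNT2: `T_COUNT` of `CycSp` with a binomial coefficient. -/
def T_COUNT2 : Prop := ∀ n s z0 : ℕ, 1 ≤ s →
  {A : Set ℕ | (∀ l ∈ A, l ≤ n) ∧ ∃ Z D : Finset ℤ, D.card = s ∧ s ^ 2 * z0 ≤ Z.card ∧
    ∀ z ∈ Z, ∀ d ∈ D, ∃ N ∈ A, (N : ℤ) = z - d}.ncard ≤
      (n + 1) ^ s * (n + 1).choose z0 * 2 ^ (n + 1 - s * z0)

/-- CH: a bound for binomial coefficients. -/
def T_CH : Prop := ∀ N M a : ℕ, N ≤ 2 ^ a * M → N.choose M ≤ 2 ^ ((a + 2) * M)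

/-! ## Laminar families of links -/

/-- MONOC: a non-crossing family has many lengths of monotone paths. -/
def T_MONOC : Prop := ∀ (lam : ℕ) (F : Finset Pt) (a b : ℤ), (lam = 1 ∨ lam = 2) → a ≤ b →
  NonCr F → (∀ p ∈ F, a ≤ p.1 ∧ p.1 + lam < p.2 ∧ p.2 ≤ b) →
  (∀ p ∈ F, ∀ q ∈ F, p.2 = q.2 → p = q) →
  ∃ X : Finset ℕ, F.card + 1 ≤ X.card ∧ ∀ N ∈ X, Mono lam F a b N

/-- MONOW: monotone paths are paths of the graph. -/
def T_MONOW : Prop := ∀ (V : Type) (Gr : SimpleGraph V) (L : ℤ) (c v : ℤ → V) (P : Finset Pt)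
  (lam : ℕ), Cyc Gr L c v P lam → ∀ F ⊆ P, ∀ (a b : ℤ) (N : ℕ), 0 ≤ a → b < L →
  Mono lam F a b N → ∃ w : Gr.Walk (c a) (c b), w.IsPath ∧ w.length = N ∧
    ∀ u ∈ w.support, (∃ j, a ≤ j ∧ j ≤ b ∧ u = c j) ∨
      (lam = 2 ∧ ∃ p ∈ F, a ≤ p.1 ∧ p.1 < b ∧ u = v p.1)

/-- RING: the cycle through two nested links with different left ends. -/
def T_RING : Prop := ∀ (V : Type) (Gr : SimpleGraph V) (L : ℤ) (c v : ℤ → V) (P : Finset Pt)
  (lam : ℕ), Cyc Gr L c v P lam → ∀ p ∈ P, ∀ q ∈ P, p.1 < q.1 → q.2 < p.2 →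
  ∃ N ∈ cycleSet Gr, (N : ℤ) = (q.1 - p.1) + (p.2 - q.2) + 2 * lam

/-- LAM: a non-crossing family of links gives a difference structure of linear size. -/
def T_LAM : Prop := ∀ (V : Type) (Gr : SimpleGraph V) (L : ℤ) (c v : ℤ → V) (P : Finset Pt)
  (lam s : ℕ), Cyc Gr L c v P lam → NonCr P → 1 ≤ s → 32 * s ≤ P.card →
  ∃ b : ℕ, P.card ≤ 16 * b ∧ ZD Gr s b

/-! ## Families of intervals without many pairwise crossing members -/

/-- ARC: the end points of a non-crossing family of arcs can be properly coloured by three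
colours. -/
def T_ARC : Prop := ∀ E : Finset (ℕ × ℕ), (∀ e ∈ E, e.1 < e.2) →
  (∀ e ∈ E, ∀ f ∈ E, ¬ (e.1 < f.1 ∧ f.1 < e.2 ∧ e.2 < f.2)) →
  ∃ φ : ℕ → Fin 3, ∀ e ∈ E, φ e.1 ≠ φ e.2

/-- Intervals with the ends `a i` and `b i` in a linear order: `i` crosses `j` from the left. -/
def CrI {ι α : Type} [LinearOrder α] (a b : ι → α) (i j : ι) : Prop :=
  a i < a j ∧ a j < b i ∧ b i < b j

/-- `r` pairwise crossing intervals do not exist. -/
def NoCr {ι α : Type} [LinearOrder α] (r : ℕ) (a b : ι → α) : Prop :=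
  ∀ f : Fin r → ι, ¬ ∀ i j, i < j → CrI a b (f i) (f j)

/-- Every family of intervals without `r` pairwise crossing members has a colouring with `K`
colours such that crossing intervals get different colours. -/
def Col (r K : ℕ) : Prop := ∀ (ι α : Type) [Fintype ι] [LinearOrder α] (a b : ι → α),
  (∀ i, a i < b i) → NoCr r a b → ∃ φ : ι → Fin K, ∀ i j, CrI a b i j → φ i ≠ φ j

/-- The same for families in which every interval contains a point of `Π` and there are no `r`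
pairwise crossing members which contain the same point of `Π`. -/
def ColP (r K : ℕ) : Prop := ∀ (ι α : Type) [Fintype ι] [LinearOrder α] (a b : ι → α)
  (Q : Finset α), (∀ i, ∃ π ∈ Q, a i < π ∧ π < b i) →
  (∀ f : Fin r → ι, ∀ π ∈ Q, (∀ i, a (f i) < π ∧ π < b (f i)) →
    ¬ ∀ i j, i < j → CrI a b (f i) (f j)) →
  ∃ φ : ι → Fin K, ∀ i j, CrI a b i j → φ i ≠ φ j

/-- COLQ -/
def T_COLQ : Prop := ∀ r K : ℕ, 1 ≤ r → Col r K → ColP r (3 * K)

/-- COLB -/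
def T_COLB : Prop := ∀ r K : ℕ, 1 ≤ r → 1 ≤ K → ColP r K → Col (r + 1) (4 * K)

/-- COL: families of links without `r` pairwise crossing members contain large non-crossing
families. -/
def T_COL : Prop := ∀ r : ℕ, 1 ≤ r → ∃ C : ℕ, 0 < C ∧ ∀ P : Finset Pt, (∀ p ∈ P, p.1 < p.2) →
  (∀ f : Fin r → Pt, (∀ i, f i ∈ P) → ¬ ∀ i j, i < j → Crs (f i) (f j)) →
  ∃ P' ⊆ P, P.card ≤ C * P'.card ∧ NonCr P'

/-- MOBC: `r` pairwise crossing links of a cycle give a Möbius ladder minor. -/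
def T_MOBC : Prop := ∀ (V : Type) (Gr : SimpleGraph V) (L : ℤ) (c v : ℤ → V) (P : Finset Pt)
  (lam r : ℕ), Cyc Gr L c v P lam → 2 ≤ r → ∀ f : Fin r → Pt, (∀ i, f i ∈ P) →
  (∀ i j, i < j → Crs (f i) (f j)) → Minor (Mob r) Gr

/-! ## Few edges outside the cycle -/

/-- SPM: graphs without `K_t` minor are sparse. -/
def T_SPM : Prop := ∀ (t n : ℕ) (G : SimpleGraph (Fin n)),
  ¬ Minor (⊤ : SimpleGraph (Fin t)) G → SparseP (2 ^ t) G

/-- UNLA: one step of the recursion for the number of isomorphism classes of graphs without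
`K_t` minor. -/
def T_UNLA : Prop := ∀ (t N s : ℕ), 1 + s * (4 + 2 * 2 ^ t + 2 * 2 ^ (2 ^ t)) ≤ N →
  ∀ T' : Finset (SimpleGraph (Fin (N - s))),
  (∀ H : SimpleGraph (Fin (N - s)), ¬ Minor (⊤ : SimpleGraph (Fin t)) H →
    ∃ H' ∈ T', Nonempty (H' ≃g H)) →
  ∃ T : Finset (SimpleGraph (Fin N)), T.card ≤ T'.card * 2 ^ (N * (2 + 2 * 2 ^ t)) ∧
    ∀ H : SimpleGraph (Fin N), ¬ Minor (⊤ : SimpleGraph (Fin t)) H →
      ∃ H' ∈ T, Nonempty (H' ≃g H)

/-- UNL: there are at most `κ ^ N` isomorphism classes of graphs with `N` vertices and without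
`K_t` minor. -/
def T_UNL : Prop := ∀ t : ℕ, ∃ κ : ℕ, ∀ N : ℕ, ∃ T : Finset (SimpleGraph (Fin N)),
  T.card ≤ κ ^ N ∧ ∀ H : SimpleGraph (Fin N), ¬ Minor (⊤ : SimpleGraph (Fin t)) H →
    ∃ H' ∈ T, Nonempty (H' ≃g H)

/-- CSW: the set of the cycle lengths in terms of sequences. -/
def T_CSW : Prop := ∀ (n : ℕ) (G : SimpleGraph (Fin n)), wcs G (fun _ => 1) = cycleSet G

/-- ROT: rotation of a cycle. -/
def T_ROT : Prop := ∀ (n : ℕ) (G : SimpleGraph (Fin n)) (L : ℕ) (W : ℕ → Fin n) (k : ℕ),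
  CycSeq G L W → k < L → ∃ W' : ℕ → Fin n, CycSeq G L W' ∧
    (∀ i, W' i = if i < L then W ((i + k) % L) else W k) ∧
    ∀ w : Sym2 (Fin n) → ℕ,
      ∑ i ∈ range L, w s(W' i, W' (i + 1)) = ∑ i ∈ range L, w s(W i, W (i + 1))

/-- SUP: suppression of a vertex of degree two. -/
def T_SUP : Prop := ∀ (n : ℕ) (G : SimpleGraph (Fin n)) (w : Sym2 (Fin n) → ℕ)
  (a b z : Fin n), a ≠ b → G.Adj a z → G.Adj z b → (∀ u, G.Adj z u → u = a ∨ u = b) →
  ¬ G.Adj a b → wcs (supG G a b z) (supW w a b z) = wcs G w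

/-- SUPM: suppression gives a minor. -/
def T_SUPM : Prop := ∀ (n : ℕ) (G : SimpleGraph (Fin n)) (Y : Finset (Fin n)) (a b z : Fin n),
  a ≠ b → G.Adj a z → G.Adj z b → a ∈ Y → b ∈ Y → z ∈ Y →
  Minor ((supG G a b z).induce ((Y.erase z : Finset (Fin n)) : Set (Fin n)))
    (G.induce (Y : Set (Fin n)))

/-- STEP: one step of the reduction. -/
def T_STEP : Prop := ∀ (n : ℕ) (G0 : SimpleGraph (Fin n)) (X : Finset (Fin n)) (e : ℕ)
  (G : SimpleGraph (Fin n)) (w : Sym2 (Fin n) → ℕ) (L : ℕ) (W : ℕ → Fin n)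
  (Y : Finset (Fin n)), St G0 X e G w L W Y → 4 ≤ L → 2 * X.card < L →
  ∃ (G' : SimpleGraph (Fin n)) (w' : Sym2 (Fin n) → ℕ) (W' : ℕ → Fin n) (Y' : Finset (Fin n)),
    St G0 X e G' w' (L - 1) W' Y'

open Classical in
/-- RED: the reduction to few vertices. -/
def T_RED : Prop := ∀ (n e : ℕ) (G : SimpleGraph (Fin n)) (L : ℕ) (W : ℕ → Fin n),
  CycSeq G L W → (offE G L W).card ≤ e → n - L ≤ e →
  ∃ (H : SimpleGraph (Fin n)) (w : Sym2 (Fin n) → ℕ) (Y : Finset (Fin n)),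
    Y.card ≤ 3 * e + 3 ∧ (∀ u v, H.Adj u v → u ∈ Y) ∧
    Minor (H.induce (Y : Set (Fin n))) G ∧ wcs H w = cycleSet G ∧
    (∀ a ∈ H.edgeSet, 1 ≤ w a) ∧
    ∑ a ∈ univ.filter (fun a => a ∈ H.edgeSet), w a ≤
      n + (univ.filter (fun a => a ∈ H.edgeSet)).card

/-- WINV: invariance of the weighted cycle set. -/
def T_WINV : Prop := ∀ (n N : ℕ) (H : SimpleGraph (Fin n)) (H0 : SimpleGraph (Fin N))
  (ι : Fin N → Fin n) (w : Sym2 (Fin n) → ℕ), Function.Injective ι →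
  (∀ a b, H0.Adj a b ↔ H.Adj (ι a) (ι b)) → (∀ u v, H.Adj u v → u ∈ Set.range ι) →
  wcs H0 (fun e => w (e.map ι)) = wcs H w

open Classical in
/-- WCNT: the number of weighted cycle sets of one graph. -/
def T_WCNT : Prop := ∀ (N n E : ℕ) (H : SimpleGraph (Fin N)),
  (univ.filter (fun a => a ∈ H.edgeSet)).card ≤ E →
  {A : Set ℕ | ∃ w : Sym2 (Fin N) → ℕ, (∀ a ∈ H.edgeSet, 1 ≤ w a) ∧
    ∑ a ∈ univ.filter (fun a => a ∈ H.edgeSet), w a ≤
      n + (univ.filter (fun a => a ∈ H.edgeSet)).card ∧ A = wcs H w}.Finite ∧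
  {A : Set ℕ | ∃ w : Sym2 (Fin N) → ℕ, (∀ a ∈ H.edgeSet, 1 ≤ w a) ∧
    ∑ a ∈ univ.filter (fun a => a ∈ H.edgeSet), w a ≤
      n + (univ.filter (fun a => a ∈ H.edgeSet)).card ∧ A = wcs H w}.ncard ≤ (n + E).choose E

/-- SMALLX: few cycle sets with few edges outside of a cycle. -/
def T_SMALLX : Prop := ∀ t : ℕ, ∃ K : ℕ, 0 < K ∧ ∀ n e : ℕ,
  {A : Set ℕ | ∃ (G : SimpleGraph (Fin n)) (L : ℕ) (W : ℕ → Fin n),
    ¬ Minor (⊤ : SimpleGraph (Fin t)) G ∧ CycSeq G L W ∧ (offE G L W).card ≤ e ∧ n - L ≤ e ∧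
    A = cycleSet G}.ncard ≤ K ^ (e + 1) * (n + K * (e + 1)).choose (K * (e + 1))

/-! ## The theorem -/

/-- the number of cycle sets of graphs without `Mob r` minor -/
noncomputable def numCycleSets (r n : ℕ) : ℕ :=
  {A : Set ℕ | ∃ G : SimpleGraph (Fin n), ¬ Minor (Mob r) G ∧ A = cycleSet G}.ncard

/-- FINAL -/
def T_FINAL : Prop := ∀ r : ℕ, 3 ≤ r → ∃ c : ℝ, 0 < c ∧ ∀ n : ℕ,
  (numCycleSets r n : ℝ) ≤ 2 ^ ((1 - c) * n)

end Pool.Agent.CycPl
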