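import Pool.Agent.CycPl.Targets

/-!
# The number of isomorphism classes of graphs without a complete minor is exponential
-/

set_option autoImplicit false

namespace Pool.Agent.CycPl

open Finset
open Pool.Agent.Pend (Minor)

namespace UNL_

/-- The number of graphs on `Fin N`. -/
theorem card_graphs (N : ℕ) : (univ : Finset (SimpleGraph (Fin N))).card ≤ 2 ^ (N * N) := by
  classical
  have h : Fintype.card (SimpleGraph (Fin N)) ≤ Fintype.card (Fin N × Fin N → Bool) := by
    refine Fintype.card_le_of_injective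
      (fun G : SimpleGraph (Fin N) => fun p : Fin N × Fin N => decide (G.Adj p.1 p.2)) ?_
    intro G H hGH
    ext a b
    have h1 := congrFun hGH (a, b)
    simpa using h1
  simpa [Finset.card_univ] using h

/-- The recursion. -/
theorem rec_bound (c b N s κ A B : ℕ) (hs : N ≤ 2 * c * s) (hsN : s ≤ N)
    (hκ : 2 ^ (2 * c * b) ≤ κ) (hA : A ≤ κ ^ (N - s)) (hB : B ≤ A * 2 ^ (N * b)) :
    B ≤ κ ^ N := by
  have h1 : 2 ^ (N * b) ≤ κ ^ s := by
    calc 2 ^ (N * b) ≤ 2 ^ (2 * c * s * b) :=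
          Nat.pow_le_pow_right (by norm_num) (Nat.mul_le_mul_right b hs)
      _ = (2 ^ (2 * c * b)) ^ s := by rw [← pow_mul]; congr 1; ring
      _ ≤ κ ^ s := Nat.pow_le_pow_left hκ s
  calc B ≤ A * 2 ^ (N * b) := hB
    _ ≤ κ ^ (N - s) * κ ^ s := Nat.mul_le_mul hA h1
    _ = κ ^ N := by rw [← pow_add, Nat.sub_add_cancel hsN]

end UNL_

/-- UNL. -/
theorem p_UNL (h1 : T_UNLA) : T_UNL := by
  intro t
  obtain ⟨c, hc⟩ : ∃ c, c = 4 + 2 * 2 ^ t + 2 * 2 ^ (2 ^ t) := ⟨_, rfl⟩
  obtain ⟨b, hb⟩ : ∃ b, b = 2 + 2 * 2 ^ t := ⟨_, rfl⟩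
  have hc1 : 1 ≤ c := by omega
  have hb1 : 1 ≤ b := by omega
  refine ⟨2 ^ (2 * c * b), fun N => ?_⟩
  induction N using Nat.strong_induction_on with
  | _ N ih =>
    by_cases hN : c + 1 ≤ N
    · have hs : ∃ s, 1 ≤ s ∧ 1 + s * c ≤ N ∧ N ≤ c * (s + 1) := by
        refine ⟨(N - 1) / c, ?_, ?_, ?_⟩
        · exact (Nat.one_le_div_iff hc1).2 (by omega)
        · have := Nat.div_mul_le_self (N - 1) c
          omega
        · have := Nat.lt_mul_div_succ (N - 1) hc1
          have h2 : c * ((N - 1) / c + 1) = c * ((N - 1) / c).succ := rfl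
          omega
      obtain ⟨s, hs1, hsN, hsc⟩ := hs
      have hsc1 : s ≤ s * c := Nat.le_mul_of_pos_right s hc1
      obtain ⟨T', hT'c, hT'⟩ := ih (N - s) (by omega)
      obtain ⟨T, hTc, hT⟩ := h1 t N s (by rw [← hc]; exact hsN) T' hT'
      refine ⟨T, ?_, hT⟩
      rw [← hb] at hTc
      refine UNL_.rec_bound c b N s _ _ _ ?_ (by omega) le_rfl hT'c hTc
      calc N ≤ c * (s + 1) := hsc
        _ ≤ c * (s + s) := Nat.mul_le_mul_left c (by omega)
        _ = 2 * c * s := by ring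
    · classical
      refine ⟨univ, ?_, fun H _ => ⟨H, mem_univ _, ⟨SimpleGraph.Iso.refl⟩⟩⟩
      refine le_trans (UNL_.card_graphs N) ?_
      rw [← pow_mul]
      apply Nat.pow_le_pow_right (by norm_num)
      apply Nat.mul_le_mul_right
      calc N ≤ c := by omega
        _ = c * 1 := by ring
        _ ≤ 2 * c * b := Nat.mul_le_mul (by omega) hb1

end Pool.Agent.CycPl
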