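import Pool.Agent.CycPl.Targets
import Pool.Agent.Pend.CNTM
import Pool.Agent.Pend.MSUB

/-!
# CycPl, UNLA: one step of the unlabelled recursion (helper2)
-/

set_option autoImplicit false

namespace Pool.Agent.CycPl

open Finset
open Pool.Agent.Pend (Minor eo T_STRUCT T_MADER T_MTRANS p_MSUB)
open Pool.Agent.Pend.CNTM_ (Qg Qg_adj)

namespace UNLA_

open Classical

variable {n N : ℕ}

/-- a surjective map with fibres of at most two elements -/
def Good (σ : Fin n → Fin N) : Prop := Function.Surjective σ ∧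
  ∀ a, ((univ : Finset (Fin n)).filter (fun x => σ x = a)).card ≤ 2

/-- the points with two preimages -/
noncomputable def two (σ : Fin n → Fin N) : Finset (Fin N) :=
  univ.filter (fun a => ((univ : Finset (Fin n)).filter (fun x => σ x = a)).card = 2)

lemma perm {σ τ : Fin n → Fin N} (hσ : Good σ) (hτ : Good τ) (h : two σ = two τ) :
    ∃ π : Equiv.Perm (Fin n), ∀ x, τ (π x) = σ x := by
  have h1 : ∀ ρ : Fin n → Fin N, Good ρ → ∀ a,
      Fintype.card {x // ρ x = a} = if a ∈ two ρ then 2 else 1 := by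
    intro ρ hρ a
    rw [Fintype.card_subtype]
    have h2 := hρ.2 a
    obtain ⟨x, hx⟩ := hρ.1 a
    have h3 : 0 < ((univ : Finset (Fin n)).filter (fun x => ρ x = a)).card :=
      card_pos.2 ⟨x, by simp [hx]⟩
    by_cases h4 : a ∈ two ρ
    · rw [if_pos h4]
      unfold two at h4
      exact (mem_filter.1 h4).2
    · rw [if_neg h4]
      unfold two at h4
      rw [mem_filter] at h4
      have h5 : ((univ : Finset (Fin n)).filter (fun x => ρ x = a)).card ≠ 2 :=
        fun h6 => h4 ⟨mem_univ _, h6⟩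
      omega
  have h2 : ∀ a, Nonempty ({x // σ x = a} ≃ {x // τ x = a}) := by
    intro a
    rw [← Fintype.card_eq, h1 σ hσ, h1 τ hτ, h]
  exact ⟨Equiv.ofFiberEquiv (fun a => (h2 a).some), fun x =>
    Equiv.ofFiberEquiv_map (fun a => (h2 a).some) x⟩

/-- the graphs which are covered by `K` along `σ` -/
noncomputable def Tset (K : SimpleGraph (Fin N)) (σ : Fin n → Fin N) :
    Finset (SimpleGraph (Fin n)) :=
  univ.filter (fun H => ∀ x y, H.Adj x y → σ x = σ y ∨ K.Adj (σ x) (σ y))

lemma card_Tset (K : SimpleGraph (Fin N)) {σ : Fin n → Fin N} (hσ : Good σ) :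
    (Tset K σ).card ≤ 2 ^ (n + 2 * eo K) := by
  obtain ⟨R1, hR1⟩ : ∃ R : Finset (Fin n × Fin n), ∀ q, q ∈ R ↔ q.1 < q.2 ∧ σ q.1 = σ q.2 :=
    ⟨univ.filter (fun q => q.1 < q.2 ∧ σ q.1 = σ q.2), fun q => by simp⟩
  obtain ⟨R2, hR2⟩ : ∃ R : Finset (Fin n × Fin n), ∀ q, q ∈ R ↔
      q.1 < q.2 ∧ K.Adj (σ q.1) (σ q.2) :=
    ⟨univ.filter (fun q => q.1 < q.2 ∧ K.Adj (σ q.1) (σ q.2)), fun q => by simp⟩
  obtain ⟨R, hR⟩ : ∃ R : Finset (Fin n × Fin n), ∀ q, q ∈ R ↔ K.Adj (σ q.1) (σ q.2) :=
    ⟨univ.filter (fun q => K.Adj (σ q.1) (σ q.2)), fun q => by simp⟩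
  have c1 : R1.card ≤ n := by
    have h := card_le_card_of_injOn (s := R1) (t := (univ : Finset (Fin n))) Prod.fst
      (fun _ _ => mem_coe.2 (mem_univ _)) ?_
    · simpa using h
    · rintro ⟨x, y⟩ hq ⟨x', y'⟩ hq' hxx
      rw [mem_coe, hR1] at hq hq'
      simp only at hq hq' hxx
      subst hxx
      by_contra hne
      have hy : y ≠ y' := fun h => hne (by rw [h])
      have h3 : ({x, y, y'} : Finset (Fin n)).card = 3 := by
        rw [card_insert_of_notMem, card_insert_of_notMem, card_singleton]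
        · simpa using hy
        · simp only [mem_insert, mem_singleton, not_or]
          exact ⟨hq.1.ne, hq'.1.ne⟩
      have h4 : ({x, y, y'} : Finset (Fin n)) ⊆ univ.filter (fun z => σ z = σ x) := by
        intro z hz
        rw [mem_insert, mem_insert, mem_singleton] at hz
        rw [mem_filter]
        refine ⟨mem_univ _, ?_⟩
        rcases hz with h | h | h
        · rw [h]
        · rw [h, hq.2]
        · rw [h, hq'.2]
      have h5 := (card_le_card h4).trans (hσ.2 (σ x))
      omega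
  have c3 : R.card ≤ 4 * eo K := by
    unfold eo
    refine card_le_mul_card_image_of_maps_to (f := fun q : Fin n × Fin n => (σ q.1, σ q.2))
      ?_ 4 ?_
    · intro q hq
      rw [hR] at hq
      rw [mem_filter]
      exact ⟨mem_univ _, hq⟩
    · rintro ⟨a, b⟩ _
      have h1 : (R.filter (fun q => (σ q.1, σ q.2) = (a, b))) ⊆
          ((univ : Finset (Fin n)).filter (fun x => σ x = a)) ×ˢ
          ((univ : Finset (Fin n)).filter (fun x => σ x = b)) := by
        intro q hq
        rw [mem_filter] at hq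
        rw [mem_product, mem_filter, mem_filter]
        have h2 := hq.2
        rw [Prod.mk.injEq] at h2
        exact ⟨⟨mem_univ _, h2.1⟩, ⟨mem_univ _, h2.2⟩⟩
      refine (card_le_card h1).trans ?_
      rw [card_product]
      have h3 := Nat.mul_le_mul (hσ.2 a) (hσ.2 b)
      omega
  have c2 : R2.card ≤ 2 * eo K := by
    have h1 : (R2.image Prod.swap).card = R2.card :=
      card_image_of_injective _ Prod.swap_injective
    have h2 : Disjoint R2 (R2.image Prod.swap) := by
      rw [disjoint_left]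
      intro q hq hq'
      rw [mem_image] at hq'
      obtain ⟨q', hq'1, hq'2⟩ := hq'
      rw [hR2] at hq hq'1
      subst hq'2
      exact absurd hq.1 (not_lt.2 hq'1.1.le)
    have h3 : R2 ∪ R2.image Prod.swap ⊆ R := by
      intro q hq
      rw [mem_union, mem_image] at hq
      rw [hR]
      rcases hq with hq | ⟨q', hq', rfl⟩
      · exact ((hR2 _).1 hq).2
      · exact ((hR2 _).1 hq').2.symm
    have h4 := card_le_card h3
    rw [card_union_of_disjoint h2, h1] at h4
    omega
  have hinj : (Tset K σ).card ≤ (R1 ∪ R2).powerset.card := by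
    refine card_le_card_of_injOn (fun H : SimpleGraph (Fin n) =>
      (univ : Finset (Fin n × Fin n)).filter (fun q => q.1 < q.2 ∧ H.Adj q.1 q.2)) ?_ ?_
    · intro H hH
      unfold Tset at hH
      rw [mem_coe, mem_filter] at hH
      rw [mem_coe, mem_powerset]
      intro q hq
      rw [mem_filter] at hq
      rw [mem_union, hR1, hR2]
      rcases hH.2 _ _ hq.2.2 with h | h
      · exact Or.inl ⟨hq.2.1, h⟩
      · exact Or.inr ⟨hq.2.1, h⟩
    · intro H _ H' _ h
      have h0 : ∀ x y : Fin n, x < y → (H.Adj x y ↔ H'.Adj x y) := by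
        intro x y hxy
        have h1 : ((x, y) : Fin n × Fin n) ∈ (univ : Finset (Fin n × Fin n)).filter
            (fun q => q.1 < q.2 ∧ H.Adj q.1 q.2) ↔ (x, y) ∈ (univ : Finset (Fin n × Fin n)).filter
            (fun q => q.1 < q.2 ∧ H'.Adj q.1 q.2) := by
          have h' : (univ : Finset (Fin n × Fin n)).filter
            (fun q => q.1 < q.2 ∧ H.Adj q.1 q.2) = (univ : Finset (Fin n × Fin n)).filter
            (fun q => q.1 < q.2 ∧ H'.Adj q.1 q.2) := h
          rw [h']
        rw [mem_filter, mem_filter] at h1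
        exact ⟨fun h2 => (h1.mp ⟨mem_univ _, hxy, h2⟩).2.2,
          fun h2 => (h1.mpr ⟨mem_univ _, hxy, h2⟩).2.2⟩
      ext x y
      rcases lt_trichotomy x y with hxy | hxy | hxy
      · exact h0 x y hxy
      · subst hxy
        exact ⟨fun h2 => absurd rfl h2.ne, fun h2 => absurd rfl h2.ne⟩
      · rw [H.adj_comm, H'.adj_comm]
        exact h0 y x hxy
  rw [card_powerset] at hinj
  refine hinj.trans (Nat.pow_le_pow_right (by norm_num) ?_)
  have := card_union_le R1 R2
  omega

/-- the standard map with a given set of double points -/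
noncomputable def std (n N : ℕ) (S : Finset (Fin N)) (h : ∃ σ : Fin n → Fin N, Good σ ∧ two σ = S) :
    Fin n → Fin N := h.choose

/-- the covering set of graphs -/
noncomputable def TT (n N m : ℕ) (K : SimpleGraph (Fin N)) (S : Finset (Fin N)) :
    Finset (SimpleGraph (Fin n)) :=
  if h : (∃ σ : Fin n → Fin N, Good σ ∧ two σ = S) ∧ eo K ≤ m then Tset K (std n N S h.1) else ∅

lemma card_TT (n N m : ℕ) (K : SimpleGraph (Fin N)) (S : Finset (Fin N)) :
    (TT n N m K S).card ≤ 2 ^ (n + 2 * m) := by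
  unfold TT
  split_ifs with h
  · refine (card_Tset K h.1.choose_spec.1).trans (Nat.pow_le_pow_right (by norm_num) ?_)
    have := h.2
    omega
  · simp

lemma exists_p (D : Finset (Fin n)) (φ : Fin n → Fin n) (hφ : Set.InjOn φ D)
    (hφ' : ∀ v ∈ D, φ v ∉ D) :
    ∃ p : Fin n → Fin (n - D.card),
      (∀ x y, p x = p y → x = y ∨ (x ∈ D ∧ φ x = y) ∨ (y ∈ D ∧ φ y = x)) ∧ Good p ∧
      ∃ ρ : Fin (n - D.card) → Fin n, (∀ a, p (ρ a) = a) ∧
        ∀ x, x = ρ (p x) ∨ (x ∈ D ∧ φ x = ρ (p x)) := by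
  have hcard : Fintype.card {v // v ∉ D} = n - D.card := by
    rw [Fintype.card_subtype_compl, Fintype.card_fin, Fintype.card_coe]
  obtain ⟨e⟩ : Nonempty ({v // v ∉ D} ≃ Fin (n - D.card)) := ⟨Fintype.equivFinOfCardEq hcard⟩
  obtain ⟨π, hπ⟩ : ∃ π : Fin n → {v // v ∉ D}, ∀ x, (π x : Fin n) = if x ∈ D then φ x else x :=
    ⟨fun x => ⟨if x ∈ D then φ x else x, by
      split_ifs with h
      · exact hφ' x h
      · exact h⟩, fun _ => rfl⟩
  refine ⟨fun x => e (π x), ?_, ⟨?_, ?_⟩, fun a => (e.symm a : Fin n), ?_, ?_⟩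
  · intro x y hxy
    have h1 : π x = π y := e.injective hxy
    have h2 := congrArg Subtype.val h1
    rw [hπ, hπ] at h2
    by_cases hx : x ∈ D
    · rw [if_pos hx] at h2
      by_cases hy : y ∈ D
      · rw [if_pos hy] at h2
        exact Or.inl (hφ hx hy h2)
      · rw [if_neg hy] at h2
        exact Or.inr (Or.inl ⟨hx, h2⟩)
    · rw [if_neg hx] at h2
      by_cases hy : y ∈ D
      · rw [if_pos hy] at h2
        exact Or.inr (Or.inr ⟨hy, h2.symm⟩)
      · rw [if_neg hy] at h2
        exact Or.inl h2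
  · intro a
    refine ⟨(e.symm a : Fin n), ?_⟩
    have h1 : π (e.symm a : Fin n) = e.symm a := by
      apply Subtype.ext
      rw [hπ, if_neg (e.symm a).2]
    show e (π (e.symm a : Fin n)) = a
    rw [h1, e.apply_symm_apply]
  · intro a
    have h1 : ((univ : Finset (Fin n)).filter (fun x => e (π x) = a)) ⊆
        insert (e.symm a : Fin n) (D.filter (fun v => φ v = (e.symm a : Fin n))) := by
      intro x hx
      rw [mem_filter] at hx
      have h2 : π x = e.symm a := by rw [← hx.2, e.symm_apply_apply]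
      have h3 := congrArg Subtype.val h2
      rw [hπ] at h3
      rw [mem_insert, mem_filter]
      by_cases hx' : x ∈ D
      · rw [if_pos hx'] at h3
        exact Or.inr ⟨hx', h3⟩
      · rw [if_neg hx'] at h3
        exact Or.inl h3
    refine (card_le_card h1).trans ((card_insert_le _ _).trans ?_)
    have h4 : (D.filter (fun v => φ v = (e.symm a : Fin n))).card ≤ 1 := by
      rw [card_le_one]
      intro x hx y hy
      rw [mem_filter] at hx hy
      exact hφ hx.1 hy.1 (hx.2.trans hy.2.symm)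
    omega
  · intro a
    have h1 : π (e.symm a : Fin n) = e.symm a := by
      apply Subtype.ext
      rw [hπ, if_neg (e.symm a).2]
    show e (π (e.symm a : Fin n)) = a
    rw [h1, e.apply_symm_apply]
  · intro x
    simp only [e.symm_apply_apply, hπ]
    by_cases hx : x ∈ D
    · rw [if_pos hx]
      exact Or.inr ⟨hx, rfl⟩
    · rw [if_neg hx]
      exact Or.inl rfl

/-- the quotient by twins is a minor -/
lemma minor_twin {D : Finset (Fin n)} {φ : Fin n → Fin n} {p : Fin n → Fin N}
    {ρ : Fin N → Fin n} (hρ1 : ∀ a, p (ρ a) = a)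
    (hρ2 : ∀ x, x = ρ (p x) ∨ (x ∈ D ∧ φ x = ρ (p x))) (G : SimpleGraph (Fin n))
    (hG : ∀ v ∈ D, ∀ w, (G.Adj v w ↔ G.Adj (φ v) w)) : Minor (Qg p G) G := by
  refine p_MSUB _ _ _ _ ρ ?_ ?_
  · intro a b hab
    rw [← hρ1 a, ← hρ1 b, hab]
  · intro a b hab
    rw [Qg_adj] at hab
    obtain ⟨_, x, y, rfl, rfl, hxy⟩ := hab
    have h1 : ∀ x w, G.Adj x w → G.Adj (ρ (p x)) w := by
      intro x w h
      rcases hρ2 x with h2 | ⟨h2, h3⟩
      · rw [← h2]
        exact h
      · rw [← h3]
        exact (hG x h2 w).1 h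
    exact (h1 y _ (h1 x _ hxy).symm).symm

end UNLA_

open Classical UNLA_ in
theorem p_UNLA (h1 : Pool.Agent.Pend.T_STRUCT) (h2 : Pool.Agent.Pend.T_MADER)
    (h3 : Pool.Agent.Pend.T_MTRANS) : T_UNLA := by
  intro t N s hs T' hT'
  refine ⟨(T' ×ˢ (univ : Finset (Finset (Fin (N - s))))).biUnion
    (fun q => TT N (N - s) (2 ^ t * (N - s)) q.1 q.2), ?_, ?_⟩
  · refine card_biUnion_le.trans ?_
    refine (sum_le_card_nsmul _ _ (2 ^ (N + 2 * (2 ^ t * (N - s)))) ?_).trans ?_
    · intro q _
      exact card_TT _ _ _ _ _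
    · rw [card_product, card_univ, Fintype.card_finset, Fintype.card_fin, smul_eq_mul, mul_assoc,
        ← pow_add]
      refine Nat.mul_le_mul_left _ (Nat.pow_le_pow_right (by norm_num) ?_)
      have h4 : N - s ≤ N := Nat.sub_le _ _
      have h5 : 2 ^ t * (N - s) ≤ 2 ^ t * N := Nat.mul_le_mul_left _ h4
      nlinarith
  · intro H hH
    obtain ⟨D, φ, hD, hφ1, hφ2, hφ3⟩ := h1 t s (Fin N) H hH (by rwa [Fintype.card_fin])
    subst hD
    obtain ⟨p, hp1, hp2, ρ, hρ1, hρ2⟩ := exists_p D φ hφ1 hφ2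
    have hmin : Minor (Qg p H) H := by
      rcases hφ3 with h | h
      · exact Pool.Agent.Pend.CNTM_.minor D φ p hp1 hp2.1 H h
      · exact minor_twin hρ1 hρ2 H h
    have hQ : ¬ Minor (⊤ : SimpleGraph (Fin t)) (Qg p H) := fun h => hH (h3 _ _ _ _ _ _ h hmin)
    obtain ⟨K, hK, ⟨f⟩⟩ := hT' _ hQ
    have hKQ : Minor K (Qg p H) := by
      refine p_MSUB _ _ _ _ f f.injective ?_
      intro a b hab
      exact f.map_adj_iff.2 hab
    have heo : eo K ≤ 2 ^ t * (N - D.card) := by
      have h4 := h2 t (Fin (N - D.card)) K (fun h => hQ (h3 _ _ _ _ _ _ h hKQ))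
      rwa [Fintype.card_fin] at h4
    set σ0 : Fin N → Fin (N - D.card) := fun x => f.symm (p x) with hσ0
    have hgood : Good σ0 := by
      refine ⟨fun a => ?_, fun a => ?_⟩
      · obtain ⟨x, hx⟩ := hp2.1 (f a)
        refine ⟨x, ?_⟩
        rw [hσ0]
        simp only
        rw [hx]
        exact f.symm_apply_apply a
      · have h4 : (univ : Finset (Fin N)).filter (fun x => σ0 x = a) =
            (univ : Finset (Fin N)).filter (fun x => p x = f a) := by
          refine filter_congr fun x _ => ?_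
          rw [hσ0]
          simp only
          constructor
          · intro h
            rw [← h]
            exact (f.apply_symm_apply _).symm
          · intro h
            rw [h]
            exact f.symm_apply_apply a
        rw [h4]
        exact hp2.2 _
    have hex : ∃ σ : Fin N → Fin (N - D.card), Good σ ∧ two σ = two σ0 := ⟨σ0, hgood, rfl⟩
    obtain ⟨π, hπ⟩ := perm hgood hex.choose_spec.1 hex.choose_spec.2.symm
    refine ⟨H.comap π.symm, ?_, ?_⟩
    · rw [mem_biUnion]
      refine ⟨(K, two σ0), mem_product.2 ⟨hK, mem_univ _⟩, ?_⟩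
      unfold TT
      rw [dif_pos ⟨hex, heo⟩]
      unfold Tset
      rw [mem_filter]
      refine ⟨mem_univ _, fun u v huv => ?_⟩
      have h4 : ∀ u, std N (N - D.card) (two σ0) hex u = σ0 (π.symm u) := by
        intro u
        rw [← hπ, π.apply_symm_apply]
        rfl
      rw [h4, h4]
      have h5 : H.Adj (π.symm u) (π.symm v) := huv
      by_cases h6 : p (π.symm u) = p (π.symm v)
      · left
        rw [hσ0]
        simp only
        rw [h6]
      · right
        have h7 : (Qg p H).Adj (p (π.symm u)) (p (π.symm v)) := by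
          rw [Qg_adj]
          exact ⟨h6, _, _, rfl, rfl, h5⟩
        rw [hσ0]
        exact f.symm.map_adj_iff.2 h7
    · exact ⟨⟨π.symm, Iff.rfl⟩⟩

end Pool.Agent.CycPl
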