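import Pool.Agent.CycPl.Targets

/-!
# The number of weighted cycle sets of one graph
-/

set_option autoImplicit false

namespace Pool.Agent.CycPl

open Finset
open Pool.Agent.HubG (cycleSet CycSeq)

/-- The edges of a cycle are edges. -/
theorem cycSeq_adj {n : ℕ} {G : SimpleGraph (Fin n)} {L : ℕ} {W : ℕ → Fin n}
    (h : CycSeq G L W) (i : ℕ) (hi : i < L) : G.Adj (W i) (W (i + 1)) := by
  rcases Nat.lt_or_ge (i + 1) L with h1 | h1
  · exact h.adj i h1
  · have h2 : i = L - 1 := by omega
    rw [h.ge (i + 1) h1, h2]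
    exact h.last

/-- The weighted cycle set depends only on the weights of the edges. -/
theorem wcs_congr {n : ℕ} (G : SimpleGraph (Fin n)) (w w' : Sym2 (Fin n) → ℕ)
    (h : ∀ a ∈ G.edgeSet, w a = w' a) : wcs G w = wcs G w' := by
  have key : ∀ (L : ℕ) (W : ℕ → Fin n), CycSeq G L W →
      ∑ i ∈ range L, w s(W i, W (i + 1)) = ∑ i ∈ range L, w' s(W i, W (i + 1)) := by
    intro L W hW
    refine Finset.sum_congr rfl fun i hi => ?_
    exact h _ (cycSeq_adj hW i (Finset.mem_range.1 hi))
  ext l
  constructor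
  · rintro ⟨L, W, hW, hl⟩
    exact ⟨L, W, hW, by rw [hl, key L W hW]⟩
  · rintro ⟨L, W, hW, hl⟩
    exact ⟨L, W, hW, by rw [hl, key L W hW]⟩

/-- WCNT. -/
theorem p_WCNT : T_WCNT := by
  classical
  intro N n E H hE
  set S : Finset (Sym2 (Fin N)) := univ.filter (fun a => a ∈ H.edgeSet) with hS
  have hmemS : ∀ a, a ∈ S ↔ a ∈ H.edgeSet := fun a => by simp [hS]
  let T : Finset (Option (Sym2 (Fin N))) := insertNone S
  let F : (Option (Sym2 (Fin N)) →₀ ℕ) → Set ℕ := fun f => wcs H (fun a => f (some a) + 1)
  have hsub : {A : Set ℕ | ∃ w : Sym2 (Fin N) → ℕ, (∀ a ∈ H.edgeSet, 1 ≤ w a) ∧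
      ∑ a ∈ S, w a ≤ n + S.card ∧ A = wcs H w} ⊆
      (((finsuppAntidiag T n).image F : Finset (Set ℕ)) : Set (Set ℕ)) := by
    rintro A ⟨w, hw, hsum, rfl⟩
    have hw' : ∀ a ∈ S, 1 ≤ w a := fun a ha => hw a ((hmemS a).1 ha)
    have h1 : ∑ a ∈ S, (w a - 1) + S.card = ∑ a ∈ S, w a := by
      rw [Finset.card_eq_sum_ones, ← Finset.sum_add_distrib]
      exact Finset.sum_congr rfl fun a ha => Nat.sub_add_cancel (hw' a ha)
    have h2 : ∑ a ∈ S, (w a - 1) ≤ n := by omega
    let g : Option (Sym2 (Fin N)) → ℕ := fun o =>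
      match o with
      | none => n - ∑ a ∈ S, (w a - 1)
      | some a => if a ∈ S then w a - 1 else 0
    let f : Option (Sym2 (Fin N)) →₀ ℕ := Finsupp.equivFunOnFinite.symm g
    have hf : ∀ o, f o = g o := fun o => rfl
    rw [Finset.mem_coe, Finset.mem_image]
    refine ⟨f, ?_, ?_⟩
    · rw [mem_finsuppAntidiag]
      constructor
      · change ∑ o ∈ insertNone S, f o = n
        rw [Finset.sum_insertNone]
        have h3 : ∑ a ∈ S, f (some a) = ∑ a ∈ S, (w a - 1) := by
          refine Finset.sum_congr rfl fun a ha => ?_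
          rw [hf]
          simp [g, ha]
        rw [h3, hf]
        change n - ∑ a ∈ S, (w a - 1) + ∑ a ∈ S, (w a - 1) = n
        omega
      · intro o ho
        rw [Finsupp.mem_support_iff, hf] at ho
        change o ∈ insertNone S
        rcases o with _ | a
        · exact Finset.none_mem_insertNone
        · rw [Finset.some_mem_insertNone]
          by_contra hcon
          exact ho (by simp [g, hcon])
    · refine wcs_congr H _ _ fun a ha => ?_
      have haS : a ∈ S := (hmemS a).2 ha
      change f (some a) + 1 = w a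
      rw [hf]
      have h4 := hw a ha
      simp only [g, haS, if_true]
      omega
  have hcard : (finsuppAntidiag T n).card = (n + S.card).choose S.card := by
    rw [card_finsuppAntidiag_nat_eq_choose]
    have h5 : T.card = S.card + 1 := Finset.card_insertNone S
    rw [h5]
    have h6 : S.card + 1 + n - 1 = n + S.card := by omega
    rw [h6]
    exact (Nat.choose_symm_of_eq_add rfl)
  have hmono : (n + S.card).choose S.card ≤ (n + E).choose E := by
    have h7 : (n + S.card).choose S.card = (n + S.card).choose n :=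
      (Nat.choose_symm_of_eq_add rfl).symm
    have h8 : (n + E).choose E = (n + E).choose n := (Nat.choose_symm_of_eq_add rfl).symm
    rw [h7, h8]
    exact Nat.choose_le_choose n (by omega)
  refine ⟨(Finset.finite_toSet _).subset hsub, ?_⟩
  calc _ ≤ ((((finsuppAntidiag T n).image F : Finset (Set ℕ)) : Set (Set ℕ))).ncard :=
        Set.ncard_le_ncard hsub (Finset.finite_toSet _)
    _ = ((finsuppAntidiag T n).image F).card := Set.ncard_coe_finset _
    _ ≤ (finsuppAntidiag T n).card := Finset.card_image_le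
    _ = (n + S.card).choose S.card := hcard
    _ ≤ (n + E).choose E := hmono

end Pool.Agent.CycPl
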