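import Pool.Agent.CycPl.Targets

/-!
# Invariance of the weighted cycle set
-/

set_option autoImplicit false

namespace Pool.Agent.CycPl

open Finset
open Pool.Agent.HubG (cycleSet CycSeq)

theorem p_WINV : T_WINV := by
  intro n N H H0 ι w hι hadj hran
  ext l
  constructor
  · rintro ⟨L, W, hW, hl⟩
    refine ⟨L, fun i => ι (W i), ⟨?_, ?_, ?_, ?_, hW.three⟩, ?_⟩
    · intro s hs
      exact (hadj _ _).1 (hW.adj s hs)
    · exact (hadj _ _).1 hW.last
    · intro s t hs ht h
      exact hW.inj s t hs ht (hι h)
    · intro s hs
      exact congrArg ι (hW.ge s hs)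
    · rw [hl]
      exact sum_congr rfl fun i _ => by simp [Sym2.map_mk]
  · rintro ⟨L, W, hW, hl⟩
    have h3 := hW.three
    have hall : ∀ i, W i ∈ Set.range ι := by
      intro i
      rcases lt_or_ge (i + 1) L with h | h
      · exact hran _ _ (hW.adj i h)
      · rcases lt_or_ge i L with h' | h'
        · have : i = L - 1 := by omega
          rw [this]
          exact hran _ _ hW.last
        · rw [hW.ge i h']
          exact hran _ _ (hW.adj 0 (by omega))
    choose W' hW' using hall
    refine ⟨L, W', ⟨?_, ?_, ?_, ?_, hW.three⟩, ?_⟩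
    · intro s hs
      rw [hadj, hW', hW']
      exact hW.adj s hs
    · rw [hadj, hW', hW']
      exact hW.last
    · intro s t hs ht h
      apply hW.inj s t hs ht
      rw [← hW' s, ← hW' t, h]
    · intro s hs
      apply hι
      rw [hW', hW']
      exact hW.ge s hs
    · rw [hl]
      exact sum_congr rfl fun i _ => by simp [Sym2.map_mk, hW']

end Pool.Agent.CycPl
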